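import Mathlib

/-!
# Functions of bounded degree on finite abelian groups

`X` is a finite abelian group, `K` a field of characteristic `p`, `D y P = P (· * y) - P` the
difference operators on functions `X → K`. If `π : X → Y` is a homomorphism to a group of exponent
dividing `p ^ m`, then all sufficiently long iterated differences of `Φ ∘ π` vanish. The functions
all of whose `(d+1)`-fold differences vanish form a space of dimension at most `(k+1)^d` if `X` has
`k` generators.
-/

namespace Helper75rk

open Module

section Defs
variable (K : Type*) [Field K] {X : Type*} [CommGroup X]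

/-- translation of functions -/
def tau : X →* Module.End K (X → K) where
  toFun y :=
    { toFun := fun P x => P (x * y)
      map_add' := fun _ _ => rfl
      map_smul' := fun _ _ => rfl }
  map_one' := by ext P x; simp
  map_mul' y z := by
    ext P x
    simp only [Module.End.mul_apply, LinearMap.coe_mk, AddHom.coe_mk]
    congr 1
    rw [mul_assoc]

/-- difference operator -/
def D (y : X) : Module.End K (X → K) := tau K y - 1

lemma D_apply (y : X) (P : X → K) (x : X) : D K y P x = P (x * y) - P x := rfl

end Defs

section Nilp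
variable (p : ℕ) [Fact p.Prime] (K : Type*) [Field K] [CharP K p]

/-- in an algebra over a field of characteristic `p`, long products of elements `τ y - 1`, where `y`
runs through a finite abelian group of exponent dividing `p ^ m`, are zero -/
lemma prod_sub_one_eq_zero {Y : Type*} [CommGroup Y] [Finite Y] {m : ℕ}
    (hY : ∀ y : Y, y ^ (p ^ m) = 1) {R : Type*} [Ring R] [Algebra K R] (τ : Y →* R)
    (l : List Y) (hl : Nat.card Y * p ^ m ≤ l.length) : (l.map fun y => τ y - 1).prod = 0 := by
  classical
  have := Fintype.ofFinite Y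
  let f : Y → MonoidAlgebra K Y := fun y => MonoidAlgebra.of K Y y - 1
  let θ := MonoidAlgebra.lift K R Y τ
  have hθ : ∀ y, θ (f y) = τ y - 1 := by
    intro y
    simp only [f, θ, map_sub, map_one, MonoidAlgebra.of_apply, MonoidAlgebra.lift_single,
      one_smul]
  have hp0 : 0 < p ^ m := pow_pos (Nat.Prime.pos Fact.out) m
  have hchar : CharP (MonoidAlgebra K Y) p := by
    refine charP_of_injective_algebraMap (R := K) (A := MonoidAlgebra K Y) ?_ p
    exact (algebraMap K (MonoidAlgebra K Y)).injective
  have hf : ∀ y, f y ^ (p ^ m) = 0 := by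
    intro y
    simp only [f]
    rw [sub_pow_char_pow, ← map_pow, hY, map_one, one_pow, sub_self]
  have h1 : (l.map f).prod = 0 := by
    rw [Finset.prod_list_map_count]
    have : ∃ y ∈ l.toFinset, p ^ m ≤ l.count y := by
      by_contra hcon
      push Not at hcon
      have hsum := List.sum_toFinset_count_eq_length l
      have hle : ∑ y ∈ l.toFinset, l.count y ≤ ∑ y ∈ l.toFinset, (p ^ m - 1) :=
        Finset.sum_le_sum fun y hy => by have := hcon y hy; omega
      rw [Finset.sum_const, smul_eq_mul, hsum] at hle
      have hc : l.toFinset.card ≤ Nat.card Y := by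
        rw [Nat.card_eq_fintype_card]; exact Finset.card_le_univ _
      have h3 : l.toFinset.card * (p ^ m - 1) ≤ Nat.card Y * (p ^ m - 1) :=
        Nat.mul_le_mul_right _ hc
      have hYpos : 0 < Nat.card Y := Nat.card_pos
      have h4 : Nat.card Y * (p ^ m - 1) < Nat.card Y * p ^ m :=
        Nat.mul_lt_mul_of_pos_left (by omega) hYpos
      omega
    obtain ⟨y, hy, hy2⟩ := this
    refine Finset.prod_eq_zero hy ?_
    obtain ⟨c, hc⟩ := Nat.exists_eq_add_of_le hy2
    rw [hc, pow_add, hf, zero_mul]
  have h2 : (l.map fun y => τ y - 1).prod = θ ((l.map f).prod) := by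
    rw [map_list_prod, List.map_map]
    congr 1
    apply List.map_congr_left
    intro y _
    exact (hθ y).symm
  rw [h2, h1, map_zero]

lemma prod_D_eq_zero {Y : Type*} [CommGroup Y] [Finite Y] {m : ℕ} (hY : ∀ y : Y, y ^ (p ^ m) = 1)
    (l : List Y) (hl : Nat.card Y * p ^ m ≤ l.length) : (l.map (D K)).prod = 0 :=
  prod_sub_one_eq_zero p K hY (tau K) l hl

lemma prod_D_comp {X Y : Type*} [CommGroup X] [CommGroup Y] (π : X →* Y) (l : List X) :
    ∀ Φ : Y → K, (l.map (D K)).prod (Φ ∘ π) = ((l.map (fun x => D K (π x))).prod Φ) ∘ π := by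
  induction l with
  | nil => intro Φ; simp
  | cons a l ih =>
    intro Φ
    simp only [List.map_cons, List.prod_cons, Module.End.mul_apply]
    rw [ih]
    funext x
    simp [D_apply]

lemma prod_D_comp_eq_zero {X Y : Type*} [CommGroup X] [CommGroup Y] [Finite Y] {m : ℕ}
    (hY : ∀ y : Y, y ^ (p ^ m) = 1) (π : X →* Y) (Φ : Y → K) (l : List X)
    (hl : Nat.card Y * p ^ m ≤ l.length) : (l.map (D K)).prod (Φ ∘ π) = 0 := by
  rw [prod_D_comp]
  have : (l.map (fun x => D K (π x))) = (l.map π).map (D K) := by rw [List.map_map]; rfl
  rw [this, prod_D_eq_zero p K hY (l.map π) (by simpa using hl)]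
  rfl

end Nilp

section Inj
variable (K : Type*) [Field K] {X : Type*} [CommGroup X] {k : ℕ} (x : Fin k → X)

/-- difference along a generator, or the identity -/
def D' : Option (Fin k) → Module.End K (X → K)
  | none => 1
  | some j => D K (x j)

lemma inj_aux (hx : Subgroup.closure (Set.range x) = ⊤) (d : ℕ) :
    ∀ P : X → K, (∀ l : List X, l.length = d + 1 → (l.map (D K)).prod P = 0) →
      (∀ l : List (Option (Fin k)), l.length = d → (l.map (D' K x)).prod P 1 = 0) → P = 0 := by
  induction d with
  | zero =>
    intro P h1 h2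
    have h3 := h2 [] rfl
    simp only [List.map_nil, List.prod_nil, Module.End.one_apply] at h3
    funext y
    have h4 := congrFun (h1 [y] rfl) 1
    simp only [List.map_cons, List.map_nil, List.prod_cons, List.prod_nil, mul_one, D_apply,
      one_mul, h3, sub_zero, Pi.zero_apply] at h4
    exact h4
  | succ d ih =>
    intro P h1 h2
    have hQ : ∀ j, D K (x j) P = 0 := by
      intro j
      apply ih
      · intro l hl
        have := h1 (l ++ [x j]) (by simp [hl])
        simpa [List.map_append, List.prod_append] using this
      · intro l hl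
        have := h2 (l ++ [some j]) (by simp [hl])
        simpa [List.map_append, List.prod_append, D'] using this
    have hinv : ∀ y : X, ∀ z : X, P (z * y) = P z := by
      intro y
      have hy : y ∈ Subgroup.closure (Set.range x) := hx ▸ Subgroup.mem_top y
      induction hy using Subgroup.closure_induction with
      | mem y hy =>
        obtain ⟨j, rfl⟩ := hy
        intro z
        have := congrFun (hQ j) z
        rw [D_apply] at this
        exact sub_eq_zero.mp this
      | one => intro z; simp
      | mul a b _ _ ha hb => intro z; rw [← mul_assoc, hb, ha]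
      | inv a _ ha => intro z; rw [← ha (z * a⁻¹)]; simp
    have h0 : P 1 = 0 := by
      have := h2 (List.replicate (d + 1) none) (by simp)
      simpa [D', List.map_replicate, List.prod_replicate] using this
    funext y
    have := hinv y 1
    rw [one_mul] at this
    rw [this, h0]; rfl

end Inj

section Cover
variable (K : Type*) [Field K] {X : Type*} [CommGroup X] {k : ℕ} (x : Fin k → X)

/-- functions killed by all `(d+1)`-fold differences -/
def Pol (d : ℕ) : Submodule K (X → K) where
  carrier := {P | ∀ l : List X, l.length = d + 1 → (l.map (D K)).prod P = 0}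
  zero_mem' := by intro l _; exact map_zero _
  add_mem' := by
    intro a b ha hb l hl
    rw [map_add, ha l hl, hb l hl, add_zero]
  smul_mem' := by
    intro c a ha l hl
    rw [map_smul, ha l hl, smul_zero]

/-- evaluation of the iterated differences at `1` -/
def ev (d : ℕ) : Pol K (X := X) d →ₗ[K] ((Fin d → Option (Fin k)) → K) where
  toFun P t := ((List.ofFn t).map (D' K x)).prod P.1 1
  map_add' P Q := by
    funext t
    simp [map_add]
  map_smul' c P := by
    funext t
    simp [map_smul]

lemma finrank_Pol_le (hx : Subgroup.closure (Set.range x) = ⊤) (d : ℕ) :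
    Module.Finite K (Pol K (X := X) d) ∧ finrank K (Pol K (X := X) d) ≤ (k + 1) ^ d := by
  have hinj : Function.Injective (ev K x d) := by
    rw [← LinearMap.ker_eq_bot, LinearMap.ker_eq_bot']
    intro P hP
    apply Subtype.ext
    apply inj_aux K x hx d P.1 P.2
    intro l hl
    subst hl
    have h := congrFun hP l.get
    change ((List.ofFn l.get).map (D' K x)).prod P.1 1 = 0 at h
    rwa [List.ofFn_get] at h
  refine ⟨Module.Finite.of_injective _ hinj, ?_⟩
  have := LinearMap.finrank_le_finrank_of_injective hinj
  simpa using this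

lemma cover {ι : Type*} (hx : Subgroup.closure (Set.range x) = ⊤) (d : ℕ) (P : ι → X → K)
    (hP : ∀ i, P i ∈ Pol K (X := X) d) :
    ∃ T : Finset ι, T.card ≤ (k + 1) ^ d ∧ ∀ χ : X, (∀ t ∈ T, P t χ = 0) → ∀ i, P i χ = 0 := by
  classical
  obtain ⟨hfin, hle⟩ := finrank_Pol_le K x hx d
  have hsub : Submodule.span K (Set.range P) ≤ Pol K d := by
    rw [Submodule.span_le]; rintro _ ⟨i, rfl⟩; exact hP i
  have : Module.Finite K (Submodule.span K (Set.range P)) :=
    Submodule.finiteDimensional_of_le hsub
  obtain ⟨t, hts, htc, hspan, -⟩ := Submodule.exists_finset_span_eq_linearIndepOn K (Set.range P)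
  have hcard : t.card ≤ (k + 1) ^ d := by
    rw [htc]; exact (Submodule.finrank_mono hsub).trans hle
  choose g hg using fun (Q : {Q // Q ∈ t}) => hts (Finset.mem_coe.2 Q.2)
  refine ⟨t.attach.image g, (Finset.card_image_le.trans (by simp)).trans hcard, ?_⟩
  intro χ hχ i
  have hi : P i ∈ Submodule.span K (t : Set (X → K)) := by
    rw [hspan]; exact Submodule.subset_span ⟨i, rfl⟩
  have hker : Submodule.span K (t : Set (X → K)) ≤
      LinearMap.ker (LinearMap.proj (R := K) (φ := fun _ : X => K) χ) := by
    rw [Submodule.span_le]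
    intro Q hQ
    have h1 := hχ (g ⟨Q, hQ⟩) (Finset.mem_image_of_mem g (Finset.mem_attach _ _))
    rw [hg ⟨Q, hQ⟩] at h1
    exact h1
  exact hker hi

end Cover

section Gen

lemma exists_gens_aux {X : Type*} [CommGroup X] [Finite X] (n : ℕ) :
    ∀ H : Subgroup X, Nat.card X ≤ Nat.card H + n →
      ∃ S : Finset X, H ⊔ Subgroup.closure (S : Set X) = ⊤ ∧ 2 ^ S.card * Nat.card H ≤ Nat.card X := by
  classical
  induction n with
  | zero =>
    intro H hH
    have : H = ⊤ := by
      apply Subgroup.eq_top_of_card_eq
      exact le_antisymm (Subgroup.card_le_card_group H) (by simpa using hH)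
    exact ⟨∅, by simp [this], by simpa using Subgroup.card_le_card_group H⟩
  | succ n ih =>
    intro H hH
    by_cases hT : H = ⊤
    · exact ⟨∅, by simp [hT], by simpa using Subgroup.card_le_card_group H⟩
    obtain ⟨x, hx⟩ : ∃ x, x ∉ H := by
      by_contra hcon; push Not at hcon
      exact hT ((Subgroup.eq_top_iff' H).2 hcon)
    set H' := H ⊔ Subgroup.closure {x} with hH'
    have hle : H ≤ H' := le_sup_left
    have hne : H ≠ H' := by
      intro h
      apply hx
      rw [h]
      exact (le_sup_right : Subgroup.closure {x} ≤ H') (Subgroup.subset_closure rfl)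
    have hdvd : Nat.card H ∣ Nat.card H' := Subgroup.card_dvd_of_le hle
    have hlt : Nat.card H < Nat.card H' := by
      rcases Nat.lt_or_ge (Nat.card H) (Nat.card H') with h | h
      · exact h
      · exact absurd (Subgroup.eq_of_le_of_card_ge hle h) hne
    have h2 : 2 * Nat.card H ≤ Nat.card H' := by
      obtain ⟨c, hc⟩ := hdvd
      have hpos : 0 < Nat.card H := Nat.card_pos
      rw [hc] at hlt ⊢
      have : 2 ≤ c := by
        by_contra h; push Not at h
        interval_cases c <;> omega
      calc 2 * Nat.card H ≤ c * Nat.card H := Nat.mul_le_mul_right _ this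
        _ = Nat.card H * c := mul_comm _ _
    obtain ⟨S, hS, hSc⟩ := ih H' (by omega)
    refine ⟨insert x S, ?_, ?_⟩
    · rw [← hS, hH', sup_assoc, ← Subgroup.closure_union, Finset.coe_insert, Set.insert_eq]
    · calc 2 ^ (insert x S).card * Nat.card H ≤ 2 ^ (S.card + 1) * Nat.card H :=
            Nat.mul_le_mul_right _ (Nat.pow_le_pow_right (by norm_num) (Finset.card_insert_le _ _))
        _ = 2 ^ S.card * (2 * Nat.card H) := by ring
        _ ≤ 2 ^ S.card * Nat.card H' := Nat.mul_le_mul_left _ h2
        _ ≤ Nat.card X := hSc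

lemma exists_gens (X : Type*) [CommGroup X] [Finite X] :
    ∃ (k : ℕ) (x : Fin k → X), Subgroup.closure (Set.range x) = ⊤ ∧ 2 ^ k ≤ Nat.card X := by
  obtain ⟨S, hS, hc⟩ := exists_gens_aux (Nat.card X) (⊥ : Subgroup X) (by omega)
  refine ⟨S.card, fun i => (S.equivFin.symm i : X), ?_, ?_⟩
  · rw [bot_sup_eq] at hS
    convert hS
    ext y
    constructor
    · rintro ⟨i, rfl⟩; exact (S.equivFin.symm i).2
    · intro hy; exact ⟨S.equivFin ⟨y, hy⟩, by simp⟩
  · simpa using hc

end Gen

end Helper75rk
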