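import Mathlib
import Pool.Agent.Helper75_rk.Deriv

/-!
# Conjugates of a short element of a group algebra
-/

namespace Helper75rk

open Module

section NS
variable (F : Type*) [Field F] {A : Type*} [CommGroup A] [Finite A]

lemma ns (hA : (Nat.card A : F) ≠ 0) (J : Ideal (MonoidAlgebra F A)) (x : MonoidAlgebra F A)
    (h : ∀ χ : MonoidAlgebra F A →ₐ[F] AlgebraicClosure F, (∀ y ∈ J, χ y = 0) → χ x = 0) :
    x ∈ J := by
  have : NeZero (Nat.card A : F) := ⟨hA⟩
  have : IsSemisimpleRing (MonoidAlgebra F A) := inferInstance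
  have hR : IsSemisimpleRing (MonoidAlgebra F A ⧸ J) :=
    RingHom.isSemisimpleRing_of_surjective (Ideal.Quotient.mk J) Ideal.Quotient.mk_surjective
  have hj := IsSemisimpleRing.jacobson_eq_bot (MonoidAlgebra F A ⧸ J)
  rw [← Ideal.Quotient.eq_zero_iff_mem]
  by_contra hx
  have hx2 : Ideal.Quotient.mk J x ∉ Ring.jacobson (MonoidAlgebra F A ⧸ J) := by
    rw [hj]; simpa using hx
  have : ∃ M : Ideal (MonoidAlgebra F A ⧸ J), M.IsMaximal ∧ Ideal.Quotient.mk J x ∉ M := by
    by_contra hcon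
    push Not at hcon
    apply hx2
    refine Ideal.mem_sInf.mpr ?_
    intro M hM
    exact hcon M ⟨hM⟩
  obtain ⟨M, hM, hxM⟩ := this
  let _ := Ideal.Quotient.field M
  have : Module.Finite F (MonoidAlgebra F A) := inferInstance
  have : Module.Finite F ((MonoidAlgebra F A ⧸ J) ⧸ M) := inferInstance
  let φ : ((MonoidAlgebra F A ⧸ J) ⧸ M) →ₐ[F] AlgebraicClosure F := IsAlgClosed.lift
  let χ : MonoidAlgebra F A →ₐ[F] AlgebraicClosure F :=
    φ.comp ((Ideal.Quotient.mkₐ F M).comp (Ideal.Quotient.mkₐ F J))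
  have h1 := h χ (by
    intro y hy
    simp only [χ, AlgHom.comp_apply, Ideal.Quotient.mkₐ_eq_mk]
    rw [Ideal.Quotient.eq_zero_iff_mem.2 hy]
    simp)
  simp only [χ, AlgHom.comp_apply, Ideal.Quotient.mkₐ_eq_mk] at h1
  have h2 := φ.toRingHom.injective (h1.trans (map_zero φ).symm)
  exact hxM (Ideal.Quotient.eq_zero_iff_mem.1 h2)

end NS

section Chars
variable {A : Type*} [CommGroup A] [Finite A] (L : Type*) [Field L]

lemma card_chars : Finite (A →* Lˣ) ∧ Nat.card (A →* Lˣ) ≤ Nat.card A := by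
  classical
  have := Fintype.ofFinite A
  have hli := linearIndependent_monoidHom A L
  have hfin : Finite (A →* L) := by
    have := hli.finite
    exact this
  have := Fintype.ofFinite (A →* L)
  have h1 := hli.fintype_card_le_finrank
  rw [Module.finrank_fintype_fun_eq_card] at h1
  have hinj : Function.Injective (fun ψ : A →* Lˣ => (Units.coeHom L).comp ψ) := by
    intro ψ φ h
    ext a
    exact DFunLike.congr_fun h a
  refine ⟨Finite.of_injective _ hinj, ?_⟩
  have h2 := Nat.card_le_card_of_injective _ hinj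
  rw [Nat.card_eq_fintype_card (α := (A →* L))] at h2
  rw [Nat.card_eq_fintype_card (α := A)]
  exact h2.trans h1

end Chars

/-- The bound. -/
def bd (c e q : ℕ) : ℕ := (Nat.log 2 c + 1) ^ (e ^ q * e)

open Classical in
lemma core (p : ℕ) [Fact p.Prime] (m q : ℕ) (F : Type*) [Field F] (hp : (p : F) ≠ 0)
    {A : Type*} [CommGroup A] [Finite A] (hA : ∀ a : A, a ^ (p ^ m) = 1) {ι : Type*}
    (a : ι → Fin q → A) (α : Fin q → F) :
    ∃ T : Finset ι, T.card ≤ bd (Nat.card A) (p ^ m) q ∧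
      ∀ i, (∑ l, α l • MonoidAlgebra.of F A (a i l)) ∈
        Ideal.span ((fun i => ∑ l, α l • MonoidAlgebra.of F A (a i l)) '' (T : Set ι)) := by
  have hcardA : (Nat.card A : F) ≠ 0 := by
    have hpg : IsPGroup p A := fun a => ⟨m, hA a⟩
    obtain ⟨n, hn⟩ := IsPGroup.iff_card.1 hpg
    rw [hn, Nat.cast_pow]
    exact pow_ne_zero _ hp
  have he0 : p ^ m ≠ 0 := pow_ne_zero _ (Nat.Prime.ne_zero Fact.out)
  have : NeZero (p ^ m) := ⟨he0⟩
  obtain ⟨hXfin, hXcard⟩ := card_chars (A := A) (AlgebraicClosure F)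
  obtain ⟨k, x, hx, hk⟩ := exists_gens (A →* (AlgebraicClosure F)ˣ)
  have hk2 : k ≤ Nat.log 2 (Nat.card A) :=
    Nat.le_log_of_pow_le (by norm_num) (hk.trans hXcard)
  let Y := Fin q → rootsOfUnity (p ^ m) (AlgebraicClosure F)
  have hY : ∀ y : Y, y ^ (p ^ m) = 1 := by
    intro y; funext l; apply Subtype.ext
    exact (mem_rootsOfUnity _ _).1 (y l).2
  have hYcard : Nat.card Y ≤ (p ^ m) ^ q := by
    simp only [Y]
    rw [Nat.card_fun, Nat.card_eq_fintype_card (α := Fin q), Fintype.card_fin]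
    exact Nat.pow_le_pow_left (card_rootsOfUnity _ _) q
  let π : ι → (A →* (AlgebraicClosure F)ˣ) →* Y := fun i =>
    { toFun := fun ψ l => ⟨ψ (a i l), by rw [mem_rootsOfUnity, ← map_pow, hA, map_one]⟩
      map_one' := by funext l; apply Subtype.ext; rfl
      map_mul' := by intro ψ φ; funext l; apply Subtype.ext; rfl }
  let Φ : Y → ZMod p := fun y =>
    if ∑ l, algebraMap F (AlgebraicClosure F) (α l) * ((y l : (AlgebraicClosure F)ˣ) :
      AlgebraicClosure F) = 0 then 0 else 1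
  have hΦ : ∀ y, Φ y = 0 ↔ ∑ l, algebraMap F (AlgebraicClosure F) (α l) *
      ((y l : (AlgebraicClosure F)ˣ) : AlgebraicClosure F) = 0 := by
    intro y
    simp only [Φ]
    split_ifs with h
    · simp [h]
    · simp [h]
  obtain ⟨T, hTc, hT⟩ := cover (ZMod p) x hx ((p ^ m) ^ q * p ^ m) (fun i => Φ ∘ π i) (by
    intro i l hl
    apply prod_D_comp_eq_zero p (ZMod p) hY
    rw [hl]
    calc Nat.card Y * p ^ m ≤ (p ^ m) ^ q * p ^ m := Nat.mul_le_mul_right _ hYcard
      _ ≤ _ := Nat.le_succ _)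
  refine ⟨T, hTc.trans (Nat.pow_le_pow_left (by omega) _), ?_⟩
  intro i
  apply ns F hcardA
  intro χ hχ
  let ψ : A →* (AlgebraicClosure F)ˣ :=
    (((χ : MonoidAlgebra F A →* AlgebraicClosure F)).comp (MonoidAlgebra.of F A)).toHomUnits
  have key : ∀ j, χ (∑ l, α l • MonoidAlgebra.of F A (a j l)) =
      ∑ l, algebraMap F (AlgebraicClosure F) (α l) * ((π j ψ l : (AlgebraicClosure F)ˣ) :
        AlgebraicClosure F) := by
    intro j
    rw [map_sum]
    apply Finset.sum_congr rfl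
    intro l _
    rw [map_smul, Algebra.smul_def]
    rfl
  have h1 := hT ψ (by
    intro t ht
    rw [Function.comp_apply, hΦ, ← key]
    exact hχ _ (Ideal.subset_span ⟨t, ht, rfl⟩)) i
  rw [Function.comp_apply, hΦ, ← key] at h1
  exact h1

end Helper75rk
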