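import Mathlib
import Pool.Agent.Helper75_rk.Core

/-!
# Characteristic zero: a degree bound which does not depend on the prime
-/

namespace Helper75rk

open Module

section PolMul
variable {K : Type*} [Field K] {X : Type*} [CommGroup X]

lemma mem_Pol_zero (P : X → K) : P ∈ Pol K (X := X) 0 ↔ ∀ y, D K y P = 0 := by
  constructor
  · intro h y
    simpa using h [y] rfl
  · intro h l hl
    obtain ⟨y, rfl⟩ := List.length_eq_one_iff.1 hl
    simpa using h y

lemma mem_Pol_succ (d : ℕ) (P : X → K) : P ∈ Pol K (X := X) (d + 1) ↔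
    ∀ y, D K y P ∈ Pol K (X := X) d := by
  constructor
  · intro h y l hl
    have := h (l ++ [y]) (by simp [hl])
    simpa [List.map_append, List.prod_append] using this
  · intro h l hl
    rcases List.eq_nil_or_concat l with rfl | ⟨l', y, rfl⟩
    · simp at hl
    · have := h y l' (by simpa using hl)
      simpa [List.map_append, List.prod_append] using this

lemma D_mul (y : X) (P Q : X → K) :
    D K y (P * Q) = D K y P * Q + P * D K y Q + D K y P * D K y Q := by
  funext x
  simp only [D_apply, Pi.mul_apply, Pi.add_apply]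
  ring

lemma Pol_le_succ (d : ℕ) : Pol K (X := X) d ≤ Pol K (X := X) (d + 1) := by
  induction d with
  | zero =>
    intro P hP
    rw [mem_Pol_succ]
    intro y
    rw [(mem_Pol_zero P).1 hP y]
    exact Submodule.zero_mem _
  | succ d ih =>
    intro P hP
    rw [mem_Pol_succ] at hP ⊢
    exact fun y => ih (hP y)

lemma Pol_mono {d d' : ℕ} (h : d ≤ d') : Pol K (X := X) d ≤ Pol K (X := X) d' := by
  induction h with
  | refl => exact le_rfl
  | step _ ih => exact ih.trans (Pol_le_succ _)

lemma Pol_mul (n : ℕ) : ∀ (d1 d2 : ℕ), d1 + d2 = n → ∀ P Q : X → K,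
    P ∈ Pol K (X := X) d1 → Q ∈ Pol K (X := X) d2 → P * Q ∈ Pol K (X := X) n := by
  induction n with
  | zero =>
    intro d1 d2 h P Q hP hQ
    obtain ⟨rfl, rfl⟩ : d1 = 0 ∧ d2 = 0 := by omega
    rw [mem_Pol_zero] at hP hQ ⊢
    intro y
    rw [D_mul, hP, hQ]; simp
  | succ n ih =>
    intro d1 d2 h P Q hP hQ
    rw [mem_Pol_succ]
    intro y
    rw [D_mul]
    refine Submodule.add_mem _ (Submodule.add_mem _ ?_ ?_) ?_
    · rcases d1 with _ | d1
      · rw [(mem_Pol_zero P).1 hP y, zero_mul]; exact Submodule.zero_mem _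
      · exact ih d1 d2 (by omega) _ _ ((mem_Pol_succ _ _).1 hP y) hQ
    · rcases d2 with _ | d2
      · rw [(mem_Pol_zero Q).1 hQ y, mul_zero]; exact Submodule.zero_mem _
      · exact ih d1 d2 (by omega) _ _ hP ((mem_Pol_succ _ _).1 hQ y)
    · rcases d1 with _ | d1
      · rw [(mem_Pol_zero P).1 hP y, zero_mul]; exact Submodule.zero_mem _
      · rcases d2 with _ | d2
        · rw [(mem_Pol_zero Q).1 hQ y, mul_zero]; exact Submodule.zero_mem _
        · refine ih d1 (d2 + 1) (by omega) _ _ ((mem_Pol_succ _ _).1 hP y)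
            (Pol_le_succ _ ((mem_Pol_succ _ _).1 hQ y))

lemma Pol_prod {ι : Type*} (S : Finset ι) (P : ι → X → K)
    (hP : ∀ i ∈ S, P i ∈ Pol K (X := X) 1) : (∏ i ∈ S, P i) ∈ Pol K (X := X) S.card := by
  classical
  induction S using Finset.induction_on with
  | empty =>
    rw [Finset.prod_empty, Finset.card_empty, mem_Pol_zero]
    intro y; funext x; simp [D_apply]
  | insert a S ha ih =>
    rw [Finset.prod_insert ha, Finset.card_insert_of_notMem ha]
    exact Pol_mul _ 1 S.card (by ring) _ _ (hP a (Finset.mem_insert_self _ _))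
      (ih fun i hi => hP i (Finset.mem_insert_of_mem hi))

end PolMul

section Vanish

open Polynomial in
/-- fewer than `p` terms: a vanishing sum of `p`-th roots of unity with integer coefficients -/
lemma vanish (p : ℕ) [Fact p.Prime] (L : Type*) [Field L] [CharZero L] {ζ : L}
    (hζ : IsPrimitiveRoot ζ p) {ι : Type*} [Fintype ι] (hcard : Fintype.card ι < p)
    (c : ι → ℤ) (e : ι → ZMod p) (h : ∑ i, (c i : L) * ζ ^ (e i).val = 0) (s : ZMod p) :
    ∑ i with e i = s, c i = 0 := by
  classical
  have hp : p.Prime := Fact.out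
  let Q : ℚ[X] := ∑ i, C (c i : ℚ) * X ^ (e i).val
  have hQ : aeval ζ Q = 0 := by
    simp only [Q, map_sum, map_mul, aeval_C, map_pow, aeval_X]
    simpa using h
  have hcoeff : ∀ s : ZMod p, Q.coeff s.val = ((∑ i with e i = s, c i : ℤ) : ℚ) := by
    intro s
    simp only [Q, finsetSum_coeff, coeff_C_mul, coeff_X_pow]
    rw [Finset.sum_filter]
    push_cast
    apply Finset.sum_congr rfl
    intro i _
    by_cases hi : e i = s
    · simp [hi]
    · rw [if_neg hi, if_neg, mul_zero]
      intro hv
      exact hi (ZMod.val_injective p hv.symm)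
  have hdeg : Q.natDegree ≤ p - 1 := by
    refine natDegree_sum_le_of_forall_le _ _ fun i _ => ?_
    refine (natDegree_C_mul_X_pow_le _ _).trans ?_
    have := ZMod.val_lt (e i)
    omega
  have hmin : cyclotomic p ℚ ∣ Q := by
    rw [cyclotomic_eq_minpoly_rat hζ hp.pos]
    exact minpoly.dvd ℚ ζ hQ
  obtain ⟨R, hR⟩ := hmin
  have hcyc : (cyclotomic p ℚ).natDegree = p - 1 := by
    rw [natDegree_cyclotomic, Nat.totient_prime hp]
  have hRdeg : R.natDegree = 0 := by
    by_cases hR0 : R = 0
    · simp [hR0]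
    · have := natDegree_mul (cyclotomic_ne_zero p ℚ) hR0
      rw [← hR, hcyc] at this
      omega
  obtain ⟨r, hr⟩ := natDegree_eq_zero.1 hRdeg
  have hall : ∀ s : ZMod p, Q.coeff s.val = r := by
    intro s
    rw [hR, ← hr, mul_comm, coeff_C_mul, cyclotomic_prime]
    simp [coeff_X_pow, ZMod.val_lt]
  obtain ⟨s₀, hs₀⟩ : ∃ s₀, s₀ ∉ Finset.univ.image e := by
    by_contra hcon
    push Not at hcon
    have h1 : (Finset.univ : Finset (ZMod p)) ⊆ Finset.univ.image e := fun x _ => hcon x
    have h2 := (Finset.card_le_card h1).trans Finset.card_image_le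
    rw [Finset.card_univ, ZMod.card, Finset.card_univ] at h2
    omega
  have hr0 : r = 0 := by
    rw [← hall s₀, hcoeff]
    rw [Finset.filter_eq_empty_iff.2]
    · simp
    · intro i _ hi
      exact hs₀ (Finset.mem_image.2 ⟨i, Finset.mem_univ _, hi⟩)
  have := hall s
  rw [hcoeff, hr0] at this
  exact_mod_cast this

end Vanish

section Minor

lemma exists_minor {L : Type*} [Field L] {r q : ℕ} (v : Fin r → Fin q → L)
    (hv : LinearIndependent L v) :
    ∃ J : Fin r → Fin q, (Matrix.of fun i j => v i (J j)).det ≠ 0 := by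
  classical
  let M : Matrix (Fin r) (Fin q) L := Matrix.of v
  have h1 : M.rank = r := by
    have := LinearIndependent.rank_matrix (M := M) hv
    simpa using this
  rw [Matrix.rank_eq_finrank_span_cols] at h1
  obtain ⟨f, hf1, hf2, hf3⟩ := Submodule.exists_fun_fin_finrank_span_eq L (Set.range M.col)
  choose J hJ using hf1
  refine ⟨fun j => J (Fin.cast h1.symm j), ?_⟩
  have h2 : LinearIndependent L
      (Matrix.of fun i j => v i (J (Fin.cast h1.symm j)) : Matrix (Fin r) (Fin r) L).col := by
    have h3 : (Matrix.of fun i j => v i (J (Fin.cast h1.symm j)) :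
        Matrix (Fin r) (Fin r) L).col = f ∘ (Fin.cast h1.symm) := by
      funext j
      rw [Function.comp_apply, ← hJ]
      rfl
    rw [h3]
    exact hf3.comp _ (Fin.cast_injective _)
  rw [Matrix.linearIndependent_cols_iff_isUnit, Matrix.isUnit_iff_isUnit_det] at h2
  exact h2.ne_zero

end Minor

end Helper75rk
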