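import Mathlib
import Pool.Agent.Helper75_rk.Zero

/-!
# Test functions: products of few linear forms which separate a non-solution from the solutions
-/

namespace Helper75rk

open Module

section Test
variable {L : Type*} [Field L] [CharZero L] {p : ℕ} [Fact p.Prime]

/-- the additive character `a ↦ ζ ^ a` -/
noncomputable def ex {ζ : L} (hζ : IsPrimitiveRoot ζ p) : AddChar (ZMod p) L :=
  AddChar.zmodChar p hζ.pow_eq_one

omit [CharZero L] in
lemma ex_sum {ζ : L} (hζ : IsPrimitiveRoot ζ p) {ι : Type*} (S : Finset ι) (g : ι → ZMod p) :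
    ex hζ (∑ i ∈ S, g i) = ∏ i ∈ S, ex hζ (g i) := by
  classical
  induction S using Finset.induction_on with
  | empty => simp
  | insert a S ha ih =>
    rw [Finset.sum_insert ha, Finset.prod_insert ha, AddChar.map_add_eq_mul, ih]

omit [CharZero L] in
lemma ex_apply {ζ : L} (hζ : IsPrimitiveRoot ζ p) (a : ZMod p) : ex hζ a = ζ ^ a.val :=
  AddChar.zmodChar_apply _ _

omit [CharZero L] in
lemma ex_inj {ζ : L} (hζ : IsPrimitiveRoot ζ p) {a b : ZMod p} (h : ex hζ a = ex hζ b) :
    a = b := by
  rw [ex_apply, ex_apply] at h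
  exact ZMod.val_injective p (hζ.pow_inj (ZMod.val_lt a) (ZMod.val_lt b) h)

open Equiv in
lemma test {ζ : L} (hζ : IsPrimitiveRoot ζ p) (q : ℕ) (hq : q.factorial < p) (α : Fin q → L)
    (s : Fin q → ZMod p) (hs : ∑ l, α l * ex hζ (s l) ≠ 0) :
    ∃ (ι : Type) (S : Finset ι) (a b : ι → Fin q) (c : ι → ZMod p),
      S.card ≤ q.factorial ^ 2 ∧ (∏ k ∈ S, (s (a k) - s (b k) + c k)) ≠ 0 ∧
      ∀ t : Fin q → ZMod p, (∏ k ∈ S, (t (a k) - t (b k) + c k)) ≠ 0 →
        ∑ l, α l * ex hζ (t l) ≠ 0 := by
  classical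
  let vec : (Fin q → ZMod p) → (Fin q → L) := fun t l => ex hζ (t l)
  let Z : Set (Fin q → ZMod p) := {t | ∑ l, α l * ex hζ (t l) = 0}
  obtain ⟨f, hf1, hf2, hf3⟩ := Submodule.exists_fun_fin_finrank_span_eq L (vec '' Z)
  generalize finrank L (Submodule.span L (vec '' Z)) = r at f hf1 hf2 hf3
  choose z hz using hf1
  have hspan : ∀ x ∈ Submodule.span L (vec '' Z), ∑ l, α l * x l = 0 := by
    intro x hx
    induction hx using Submodule.span_induction with
    | mem x hx => obtain ⟨t, ht, rfl⟩ := hx; exact ht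
    | zero => simp
    | add a b _ _ ha hb => simp only [Pi.add_apply, mul_add, Finset.sum_add_distrib, ha, hb, add_zero]
    | smul c a _ ha =>
      simp only [Pi.smul_apply, smul_eq_mul]
      have : ∑ l, α l * (c * a l) = c * ∑ l, α l * a l := by
        rw [Finset.mul_sum]; exact Finset.sum_congr rfl fun l _ => by ring
      rw [this, ha, mul_zero]
  have hnot : vec s ∉ Submodule.span L (Set.range f) := by
    rw [hf2]; intro h; exact hs (hspan _ h)
  have hli : LinearIndependent L (Fin.cons (vec s) f : Fin (r + 1) → (Fin q → L)) :=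
    linearIndependent_finCons.2 ⟨hf3, hnot⟩
  have hrq : r + 1 ≤ q := by
    have := hli.fintype_card_le_finrank
    simpa using this
  obtain ⟨J, hJ⟩ := exists_minor _ hli
  let w : (Fin q → ZMod p) → Fin (r + 1) → Fin q → ZMod p := fun t => Fin.cons t z
  have hw : ∀ t i l, (Fin.cons (vec t) f : Fin (r + 1) → Fin q → L) i l = ex hζ (w t i l) := by
    intro t i l
    refine Fin.cases ?_ (fun k => ?_) i
    · rfl
    · simp only [w, Fin.cons_succ]
      rw [← (hz k).2]
  let e : Perm (Fin (r + 1)) → (Fin q → ZMod p) → ZMod p := fun σ t => ∑ i, w t (σ i) (J i)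
  have hdet : ∀ t, (Matrix.of fun i j => (Fin.cons (vec t) f : Fin (r + 1) → Fin q → L) i
      (J j)).det = ∑ σ : Perm (Fin (r + 1)), ((Perm.sign σ : ℤ) : L) * ex hζ (e σ t) := by
    intro t
    rw [Matrix.det_apply']
    apply Finset.sum_congr rfl
    intro σ _
    congr 1
    simp only [e, Matrix.of_apply, hw]
    rw [ex_sum]
  have hform : ∀ σ t, e σ t = t (J (σ.symm 0)) + e σ 0 := by
    intro σ t
    have h1 : ∀ i, w t (σ i) (J i) = (if i = σ.symm 0 then t (J i) else 0) + w 0 (σ i) (J i) := by
      intro i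
      by_cases hi : i = σ.symm 0
      · rw [if_pos hi]
        have : σ i = 0 := by rw [hi]; simp
        rw [this]
        simp [w]
      · rw [if_neg hi]
        have : σ i ≠ 0 := fun h => hi (by rw [← h]; simp)
        obtain ⟨k, hk⟩ := Fin.exists_succ_eq.2 this
        rw [← hk]
        simp [w]
    simp only [e]
    rw [Finset.sum_congr rfl fun i _ => h1 i, Finset.sum_add_distrib]
    congr 1
    simp
  obtain ⟨b, hb⟩ : ∃ b, ∑ σ with e σ s = b, (Perm.sign σ : ℤ) ≠ 0 := by
    by_contra hcon
    push Not at hcon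
    apply hJ
    rw [hdet, ← Finset.sum_fiberwise Finset.univ (fun σ => e σ s)]
    apply Finset.sum_eq_zero
    intro b _
    have h1 : ∑ σ with e σ s = b, ((Perm.sign σ : ℤ) : L) * ex hζ (e σ s) =
        ((∑ σ with e σ s = b, (Perm.sign σ : ℤ) : ℤ) : L) * ex hζ b := by
      push_cast
      rw [Finset.sum_mul]
      apply Finset.sum_congr rfl
      intro σ hσ
      rw [(Finset.mem_filter.1 hσ).2]
    rw [h1, hcon b]; simp
  let B : Finset (Perm (Fin (r + 1))) := Finset.univ.filter fun σ => e σ s = b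
  refine ⟨Perm (Fin (r + 1)) × Perm (Fin (r + 1)), B ×ˢ Bᶜ, fun k => J (k.1.symm 0),
    fun k => J (k.2.symm 0), fun k => e k.1 0 - e k.2 0, ?_, ?_, ?_⟩
  · rw [Finset.card_product]
    have hc : Fintype.card (Perm (Fin (r + 1))) ≤ q.factorial := by
      rw [Fintype.card_perm, Fintype.card_fin]
      exact Nat.factorial_le hrq
    calc B.card * Bᶜ.card ≤ q.factorial * q.factorial :=
          Nat.mul_le_mul ((Finset.card_le_univ _).trans hc) ((Finset.card_le_univ _).trans hc)
      _ = _ := by ring
  · rw [Finset.prod_ne_zero_iff]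
    rintro ⟨σ, τ⟩ hk
    obtain ⟨h1, h2⟩ := Finset.mem_product.1 hk
    have h3 : e σ s = b := (Finset.mem_filter.1 h1).2
    have h4 : e τ s ≠ b := by
      intro h
      rw [Finset.mem_compl] at h2
      exact h2 (Finset.mem_filter.2 ⟨Finset.mem_univ _, h⟩)
    intro h
    apply h4
    rw [hform] at h3 ⊢
    rw [← h3]
    simp only at h
    linear_combination -h
  · intro t ht hsol
    rw [Finset.prod_ne_zero_iff] at ht
    have hsep : ∀ σ ∈ B, ∀ τ, τ ∉ B → e σ t ≠ e τ t := by
      intro σ hσ τ hτ h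
      apply ht (σ, τ) (Finset.mem_product.2 ⟨hσ, Finset.mem_compl.2 hτ⟩)
      rw [hform σ t, hform τ t] at h
      simp only
      linear_combination h
    -- the determinant at `t` vanishes
    have hmem : vec t ∈ Submodule.span L (Set.range f) := by
      rw [hf2]; exact Submodule.subset_span ⟨t, hsol, rfl⟩
    obtain ⟨c, hc⟩ := (Submodule.mem_span_range_iff_exists_fun L).1 hmem
    have hdet0 : (Matrix.of fun i j => (Fin.cons (vec t) f : Fin (r + 1) → Fin q → L) i
        (J j)).det = 0 := by
      rw [← Matrix.exists_vecMul_eq_zero_iff]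
      refine ⟨Fin.cons (-1) c, ?_, ?_⟩
      · intro h
        have := congrFun h 0
        simp at this
      · funext j
        have h1 := congrFun hc (J j)
        simp only [Finset.sum_apply, Pi.smul_apply, smul_eq_mul] at h1
        simp only [Matrix.vecMul, dotProduct, Fin.sum_univ_succ, Matrix.of_apply, Fin.cons_zero,
          Fin.cons_succ, Pi.zero_apply]
        rw [h1]; ring
    rw [hdet] at hdet0
    have hvan := vanish p L hζ (ι := Perm (Fin (r + 1))) (by
        rw [Fintype.card_perm, Fintype.card_fin]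
        exact (Nat.factorial_le hrq).trans_lt hq) (fun σ => (Perm.sign σ : ℤ)) (fun σ => e σ t) (by
        simpa only [ex_apply] using hdet0)
    apply hb
    change ∑ σ ∈ B, (Perm.sign σ : ℤ) = 0
    rw [← Finset.sum_fiberwise B (fun σ => e σ t)]
    apply Finset.sum_eq_zero
    intro b' _
    by_cases hex : ∃ σ ∈ B, e σ t = b'
    · obtain ⟨σ, hσB, hσ⟩ := hex
      rw [← hvan b']
      apply Finset.sum_congr ?_ fun _ _ => rfl
      ext τ
      simp only [Finset.mem_filter, Finset.mem_univ, true_and]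
      constructor
      · exact fun h => h.2
      · intro h
        refine ⟨?_, h⟩
        by_contra hτ
        exact hsep σ hσB τ hτ (hσ.trans h.symm)
    · apply Finset.sum_eq_zero
      intro σ hσ
      exact absurd ⟨σ, (Finset.mem_filter.1 hσ).1, (Finset.mem_filter.1 hσ).2⟩ hex

end Test

end Helper75rk
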