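import Mathlib
import Pool.Agent.Helper75_rk.Test

/-!
# The covering statement in characteristic zero, uniformly in the prime
-/

namespace Helper75rk

open Module

/-- the covering statement with the bound `B` -/
def CoreBd.{x, y} (F : Type y) [Field F] (e q : ℕ) (B : ℕ → ℕ) : Prop :=
  ∀ (A : Type x) [CommGroup A] [Finite A], (∀ a : A, a ^ e = 1) → ∀ (ι : Type x)
    (a : ι → Fin q → A) (α : Fin q → F),
    ∃ T : Finset ι, T.card ≤ B (Nat.card A) ∧
      ∀ i, (∑ l, α l • MonoidAlgebra.of F A (a i l)) ∈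
        Ideal.span ((fun i => ∑ l, α l • MonoidAlgebra.of F A (a i l)) '' (T : Set ι))

lemma core0.{x, y} (p : ℕ) [Fact p.Prime] (q : ℕ) (hq : q.factorial < p) (F : Type y) [Field F]
    [CharZero F] : CoreBd.{x, y} F p q (fun c => (Nat.log 2 c + 1) ^ (q.factorial ^ 2)) := by
  classical
  intro A _ _ hA ι a α
  have hp : p.Prime := Fact.out
  have hcardA : (Nat.card A : F) ≠ 0 := by
    exact_mod_cast Nat.card_pos.ne'
  have : CharZero (AlgebraicClosure F) := inferInstance
  have hp0 : NeZero ((p : ℕ) : AlgebraicClosure F) := ⟨by exact_mod_cast hp.ne_zero⟩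
  obtain ⟨ζ, hζ⟩ : ∃ ζ : AlgebraicClosure F, IsPrimitiveRoot ζ p :=
    HasEnoughRootsOfUnity.exists_primitiveRoot (AlgebraicClosure F) p
  obtain ⟨hXfin, hXcard⟩ := card_chars (A := A) (AlgebraicClosure F)
  obtain ⟨k, x, hx, hk⟩ := exists_gens (A →* (AlgebraicClosure F)ˣ)
  have hk2 : k ≤ Nat.log 2 (Nat.card A) :=
    Nat.le_log_of_pow_le (by norm_num) (hk.trans hXcard)
  -- logarithms
  have hlg : ∀ (χ : A →* (AlgebraicClosure F)ˣ) (b : A), ∃ s : ZMod p,
      ex hζ s = ((χ b : (AlgebraicClosure F)ˣ) : AlgebraicClosure F) := by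
    intro χ b
    have h1 : ((χ b : (AlgebraicClosure F)ˣ) : AlgebraicClosure F) ^ p = 1 := by
      rw [← Units.val_pow_eq_pow_val, ← map_pow, hA, map_one, Units.val_one]
    obtain ⟨i, hi, hi2⟩ := hζ.eq_pow_of_pow_eq_one h1
    exact ⟨(i : ZMod p), by rw [ex_apply, ZMod.val_natCast, Nat.mod_eq_of_lt hi, hi2]⟩
  choose lg hlg using hlg
  have hadd : ∀ χ ψ b, lg (χ * ψ) b = lg χ b + lg ψ b := by
    intro χ ψ b
    apply ex_inj hζ
    rw [AddChar.map_add_eq_mul, hlg, hlg, hlg]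
    simp
  -- test data
  have htest := fun s : {s : Fin q → ZMod p //
      ∑ l, algebraMap F (AlgebraicClosure F) (α l) * ex hζ (s l) ≠ 0} =>
    test hζ q hq (fun l => algebraMap F (AlgebraicClosure F) (α l)) s.1 s.2
  choose κ S ua ub uc hcard hne hsep using htest
  let P : ι × {s : Fin q → ZMod p //
      ∑ l, algebraMap F (AlgebraicClosure F) (α l) * ex hζ (s l) ≠ 0} →
      (A →* (AlgebraicClosure F)ˣ) → ZMod p :=
    fun i => ∏ k ∈ S i.2, fun χ => lg χ (a i.1 (ua i.2 k)) - lg χ (a i.1 (ub i.2 k)) + uc i.2 k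
  have hPapp : ∀ i χ, P i χ =
      ∏ k ∈ S i.2, (lg χ (a i.1 (ua i.2 k)) - lg χ (a i.1 (ub i.2 k)) + uc i.2 k) := by
    intro i χ
    simp only [P, Finset.prod_apply]
  obtain ⟨T, hTc, hT⟩ := cover (ZMod p) x hx (q.factorial ^ 2) P (by
    intro i
    refine Pol_mono (hcard i.2) (Pol_prod _ _ ?_)
    intro k _
    rw [mem_Pol_succ]
    intro y
    rw [mem_Pol_zero]
    intro y'
    funext χ
    simp only [D_apply, hadd, Pi.zero_apply]
    ring)
  refine ⟨T.image Prod.fst, (Finset.card_image_le.trans hTc).trans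
    (Nat.pow_le_pow_left (by omega) _), ?_⟩
  intro i
  apply ns F hcardA
  intro χ hχ
  let ψ : A →* (AlgebraicClosure F)ˣ :=
    (((χ : MonoidAlgebra F A →* AlgebraicClosure F)).comp (MonoidAlgebra.of F A)).toHomUnits
  have key : ∀ j, χ (∑ l, α l • MonoidAlgebra.of F A (a j l)) =
      ∑ l, algebraMap F (AlgebraicClosure F) (α l) * ex hζ (lg ψ (a j l)) := by
    intro j
    rw [map_sum]
    apply Finset.sum_congr rfl
    intro l _
    rw [map_smul, Algebra.smul_def, hlg]
    rfl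
  by_contra hcon
  rw [key] at hcon
  have h1 : ¬ ∀ i, P i ψ = 0 := by
    intro hall
    have h2 := hall (i, ⟨fun l => lg ψ (a i l), hcon⟩)
    rw [hPapp] at h2
    exact hne ⟨fun l => lg ψ (a i l), hcon⟩ h2
  apply h1
  apply hT ψ
  intro t ht
  by_contra hne2
  rw [hPapp] at hne2
  have h3 := hsep t.2 (fun l => lg ψ (a t.1 l)) hne2
  apply h3
  rw [← key]
  exact hχ _ (Ideal.subset_span ⟨t.1, by
    simp only [Finset.coe_image, Set.mem_image, Finset.mem_coe]
    exact ⟨t, ht, rfl⟩, rfl⟩)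

/-- the covering statement in characteristic zero, for all primes -/
lemma core0_all.{x, y} (p : ℕ) (hp : p.Prime) (q : ℕ) (hq1 : 1 ≤ q) (F : Type y) [Field F]
    [CharZero F] : CoreBd.{x, y} F p q (fun c => (Nat.log 2 c + 1) ^ (q.factorial ^ (q + 1))) := by
  have : Fact p.Prime := ⟨hp⟩
  intro A _ _ hA ι a α
  have hf1 : 1 ≤ q.factorial := Nat.factorial_pos q
  rcases Nat.lt_or_ge q.factorial p with h | h
  · obtain ⟨T, hT, hT2⟩ := core0 p q h F A hA ι a α
    exact ⟨T, hT.trans (Nat.pow_le_pow_right (by omega)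
      (Nat.pow_le_pow_right hf1 (by omega))), hT2⟩
  · obtain ⟨T, hT, hT2⟩ := core p 1 q F (by exact_mod_cast hp.ne_zero) (by simpa using hA) a α
    refine ⟨T, hT.trans ?_, hT2⟩
    unfold bd
    refine Nat.pow_le_pow_right (by omega) ?_
    rw [pow_one, ← pow_succ]
    exact Nat.pow_le_pow_left h _

end Helper75rk
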