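import Mathlib
import Pool.Agent.Helper75_rk.Core

/-!
# The rank of short combinations of elements of a coset of a normal abelian `p`-subgroup
-/

namespace Helper75rk

open Module

variable {F V G : Type*} [Field F] [AddCommGroup V] [Module F V] [FiniteDimensional F V]
  [Group G] [Finite G]

/-- no proper nonzero invariant subspace -/
def Irr (ρ : Representation F G V) : Prop :=
  ∀ W : Submodule F V, (∀ g, ∀ w ∈ W, ρ g w ∈ W) → W = ⊥ ∨ W = ⊤

/-- the core argument: finitely many conjugates control all of them -/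
lemma rank_of_cover (ρ : Representation F G V) (hirr : Irr ρ) (f : V →ₗ[F] V) (hf : f ≠ 0)
    (T : Finset G) (hT : ∀ v, (∀ t ∈ T, f (ρ t v) = 0) → ∀ g, f (ρ g v) = 0) :
    finrank F V ≤ T.card * finrank F (LinearMap.range f) := by
  let W : Submodule F V := ⨅ g : G, LinearMap.ker (f ∘ₗ ρ g)
  have hW : ∀ v, v ∈ W ↔ ∀ g, f (ρ g v) = 0 := by
    intro v
    simp [W, Submodule.mem_iInf]
  have hWbot : W = ⊥ := by
    rcases hirr W (by
      intro h w hw
      rw [hW] at hw ⊢
      intro g
      have := hw (g * h)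
      rwa [map_mul] at this) with h | h
    · exact h
    · exfalso
      apply hf
      ext v
      have hv : v ∈ W := h ▸ Submodule.mem_top
      have := (hW v).1 hv 1
      simpa using this
  let L : V →ₗ[F] (T → LinearMap.range f) :=
    LinearMap.pi fun t => (f.rangeRestrict) ∘ₗ (ρ t.1)
  have hL : Function.Injective L := by
    rw [← LinearMap.ker_eq_bot, LinearMap.ker_eq_bot']
    intro v hv
    have h1 : v ∈ W := by
      rw [hW]
      apply hT
      intro t ht
      have := congrFun hv ⟨t, ht⟩
      exact congrArg Subtype.val this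
    rw [hWbot] at h1
    exact (Submodule.mem_bot F).1 h1
  have := LinearMap.finrank_le_finrank_of_injective hL
  rw [Module.finrank_pi_fintype] at this
  simpa using this

omit [FiniteDimensional F V] in
/-- a normal abelian `p`-subgroup acts trivially on an irreducible module in characteristic `p` -/
lemma trivial_action (p : ℕ) [Fact p.Prime] [CharP F p] (m : ℕ) [Nontrivial V]
    (ρ : Representation F G V) (hirr : Irr ρ)
    (A : Subgroup G) [A.Normal] (hcomm : ∀ a ∈ A, ∀ b ∈ A, a * b = b * a)
    (hexp : ∀ a ∈ A, a ^ (p ^ m) = 1) : ∀ a ∈ A, ρ a = 1 := by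
  classical
  let _ : CommGroup A := { (inferInstance : Group A) with
    mul_comm := fun a b => Subtype.ext (hcomm a a.2 b b.2) }
  have hexp' : ∀ a : A, a ^ (p ^ m) = 1 := fun a => Subtype.ext (by simpa using hexp a a.2)
  let τ : A →* Module.End F V := ρ.comp A.subtype
  have hlong : ∃ N : ℕ, ∀ l : List A, l.length = N → (l.map fun a => τ a - 1).prod = 0 :=
    ⟨Nat.card A * p ^ m, fun l hl => prod_sub_one_eq_zero p F hexp' τ l hl.ge⟩
  obtain ⟨w, hw0, hw⟩ : ∃ w : V, w ≠ 0 ∧ ∀ a : A, τ a w = w := by
    have hspec := Nat.find_spec hlong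
    have hmin := fun n => Nat.find_min hlong (m := n)
    rcases hN : Nat.find hlong with _ | n
    · exfalso
      rw [hN] at hspec
      have h0 := hspec [] rfl
      simp only [List.map_nil, List.prod_nil] at h0
      exact one_ne_zero h0
    · rw [hN] at hspec hmin
      have h1 := hmin n (Nat.lt_succ_self n)
      push Not at h1
      obtain ⟨l, hl, hl2⟩ := h1
      obtain ⟨v, hv⟩ : ∃ v, (l.map fun a => τ a - 1).prod v ≠ 0 := by
        by_contra hcon; push Not at hcon
        exact hl2 (LinearMap.ext hcon)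
      refine ⟨_, hv, ?_⟩
      intro a
      have h2 := hspec (a :: l) (by simp [hl])
      rw [List.map_cons, List.prod_cons] at h2
      have h3 := LinearMap.congr_fun h2 v
      rw [Module.End.mul_apply, LinearMap.sub_apply, Module.End.one_apply,
        LinearMap.zero_apply] at h3
      exact sub_eq_zero.1 h3
  let W : Submodule F V := ⨅ a : A, LinearMap.ker (τ a - 1)
  have hW : ∀ v, v ∈ W ↔ ∀ a ∈ A, ρ a v = v := by
    intro v
    simp [W, Submodule.mem_iInf, sub_eq_zero, τ]
  rcases hirr W (by
    intro g v hv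
    rw [hW] at hv ⊢
    intro a ha
    have h1 := hv (g⁻¹ * a * g⁻¹⁻¹) (Subgroup.Normal.conj_mem inferInstance _ ha g⁻¹)
    have h2 : ρ a (ρ g v) = ρ g (ρ (g⁻¹ * a * g⁻¹⁻¹) v) := by
      rw [← Module.End.mul_apply, ← Module.End.mul_apply, ← map_mul, ← map_mul]
      congr 2
      group
    rw [h2, h1]) with h | h
  · exfalso
    apply hw0
    have : w ∈ W := by
      rw [hW]; intro a ha; exact hw ⟨a, ha⟩
    rw [h] at this
    exact (Submodule.mem_bot F).1 this
  · intro a ha
    ext v
    have hv : v ∈ W := h ▸ Submodule.mem_top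
    exact (hW v).1 hv a ha

theorem rank_bound (p : ℕ) [Fact p.Prime] (m q : ℕ) (ρ : Representation F G V) (hirr : Irr ρ)
    (A : Subgroup G) [A.Normal] (hcomm : ∀ a ∈ A, ∀ b ∈ A, a * b = b * a)
    (hexp : ∀ a ∈ A, a ^ (p ^ m) = 1) (h : Fin q → G) (hh : ∀ i j, (h i)⁻¹ * h j ∈ A)
    (α : Fin q → F) (hf : ∑ l, α l • ρ (h l) ≠ 0) :
    finrank F V ≤ bd (Nat.card A) (p ^ m) q *
      finrank F (LinearMap.range (∑ l, α l • ρ (h l) : V →ₗ[F] V)) := by
  classical
  have hq : Nonempty (Fin q) := by
    by_contra hcon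
    rw [not_nonempty_iff] at hcon
    apply hf
    exact Finset.sum_eq_zero fun l _ => (hcon.false l).elim
  obtain ⟨i₀⟩ := hq
  let _ : CommGroup A := { (inferInstance : Group A) with
    mul_comm := fun a b => Subtype.ext (hcomm a a.2 b b.2) }
  have hexp' : ∀ a : A, a ^ (p ^ m) = 1 := fun a => Subtype.ext (by simpa using hexp a a.2)
  set f : V →ₗ[F] V := ∑ l, α l • ρ (h l) with hfdef
  by_cases hp : (p : F) = 0
  · -- the normal `p`-subgroup acts trivially
    have hchar : CharP F p := (CharP.charP_iff_prime_eq_zero Fact.out).2 hp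
    have hnt : Nontrivial V := by
      by_contra hcon
      rw [not_nontrivial_iff_subsingleton] at hcon
      exact hf (LinearMap.ext fun v => Subsingleton.elim _ _)
    have htriv := trivial_action p m ρ hirr A hcomm hexp
    have hf2 : f = (∑ l, α l) • ρ (h i₀) := by
      rw [hfdef, Finset.sum_smul]
      apply Finset.sum_congr rfl
      intro l _
      congr 1
      have : h l = h i₀ * ((h i₀)⁻¹ * h l) := by group
      rw [this, map_mul, htriv _ (hh i₀ l), mul_one]
    have hc : (∑ l, α l) ≠ 0 := by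
      intro h0
      apply hf
      rw [hf2, h0, zero_smul]
    have hinj : Function.Injective f := by
      rw [← LinearMap.ker_eq_bot, LinearMap.ker_eq_bot']
      intro v hv
      rw [hf2, LinearMap.smul_apply] at hv
      have h1 := (smul_eq_zero.1 hv).resolve_left hc
      have h2 := congrArg (ρ (h i₀)⁻¹) h1
      rw [map_zero, ← Module.End.mul_apply, ← map_mul, inv_mul_cancel, map_one] at h2
      exact h2
    rw [LinearMap.finrank_range_of_inj hinj]
    exact Nat.le_mul_of_pos_left _ (by unfold bd; positivity)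
  · obtain ⟨T, hTc, hT⟩ := core p m q F hp hexp' (ι := G)
      (fun g l => (⟨g⁻¹ * ((h i₀)⁻¹ * h l) * g⁻¹⁻¹,
        Subgroup.Normal.conj_mem inferInstance _ (hh i₀ l) g⁻¹⟩ : A)) α
    refine (rank_of_cover ρ hirr f hf T ?_).trans (Nat.mul_le_mul_right _ hTc)
    let τ : MonoidAlgebra F A →ₐ[F] Module.End F V :=
      MonoidAlgebra.lift F (Module.End F V) A (ρ.comp A.subtype)
    have hτ : ∀ g v, τ (∑ l, α l • MonoidAlgebra.of F A
        (⟨g⁻¹ * ((h i₀)⁻¹ * h l) * g⁻¹⁻¹,
        Subgroup.Normal.conj_mem inferInstance _ (hh i₀ l) g⁻¹⟩ : A)) v =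
        ρ (g⁻¹ * (h i₀)⁻¹) (f (ρ g v)) := by
      intro g v
      rw [map_sum]
      simp only [hfdef, map_smul, τ, MonoidAlgebra.of_apply, MonoidAlgebra.lift_single, one_smul,
        LinearMap.sum_apply, LinearMap.smul_apply, MonoidHom.comp_apply, Subgroup.coe_subtype,
        map_sum]
      apply Finset.sum_congr rfl
      intro l _
      congr 1
      rw [← Module.End.mul_apply, ← Module.End.mul_apply, ← map_mul, ← map_mul]
      congr 2
      group
    intro v hv g
    have h1 : ∀ z ∈ Ideal.span ((fun g : G => ∑ l, α l • MonoidAlgebra.of F A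
        (⟨g⁻¹ * ((h i₀)⁻¹ * h l) * g⁻¹⁻¹,
        Subgroup.Normal.conj_mem inferInstance _ (hh i₀ l) g⁻¹⟩ : A)) '' (T : Set G)),
        τ z v = 0 := by
      intro z hz
      induction hz using Submodule.span_induction with
      | mem z hz =>
        obtain ⟨t, ht, rfl⟩ := hz
        simp only
        rw [hτ, hv t ht, map_zero]
      | zero => simp
      | add a b _ _ ha hb => rw [map_add, LinearMap.add_apply, ha, hb, add_zero]
      | smul r a _ ha =>
        rw [smul_eq_mul, map_mul, Module.End.mul_apply, ha, map_zero]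
    have h2 := h1 _ (hT g)
    rw [hτ] at h2
    have h3 := congrArg (ρ (g⁻¹ * (h i₀)⁻¹)⁻¹) h2
    rw [map_zero, ← Module.End.mul_apply, ← map_mul, inv_mul_cancel, map_one] at h3
    simpa using h3

end Helper75rk
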