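import Mathlib
import Pool.Agent.Helper75_rk.Sep

/-!
# The asymptotic form
-/

namespace Helper75rk

open Module Filter

lemma eventually_bound (ε : ℝ) (hε : 0 < ε) (C d : ℕ) :
    ∃ N : ℕ, ∀ n : ℕ, N < n →
      (C : ℝ) * (Real.log n / (ε * Real.log 2) + 1) ^ d ≤ (n : ℝ) ^ ε := by
  have hlog2 : 0 < Real.log 2 := Real.log_pos (by norm_num)
  set r : ℝ := ε / (2 * (d + 1)) with hr
  have hr0 : 0 < r := by positivity
  have h1 : (fun x : ℝ => Real.log x / (ε * Real.log 2) + 1) =o[atTop] fun x => x ^ r := by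
    refine Asymptotics.IsLittleO.add ?_ ?_
    · have := (isLittleO_log_rpow_atTop hr0).const_mul_left ((ε * Real.log 2)⁻¹)
      refine this.congr_left fun x => ?_
      rw [div_eq_mul_inv, mul_comm]
    · have h2 : Tendsto (fun x : ℝ => x ^ r) atTop atTop := tendsto_rpow_atTop hr0
      exact Asymptotics.isLittleO_const_left.2 (Or.inr (by
        exact tendsto_norm_atTop_atTop.comp h2))
  have h2 : ∀ᶠ x : ℝ in atTop, |Real.log x / (ε * Real.log 2) + 1| ≤ x ^ r := by
    have := h1.bound (c := 1) one_pos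
    filter_upwards [this, eventually_ge_atTop (0:ℝ)] with x hx hx0
    rwa [one_mul, Real.norm_eq_abs, Real.norm_eq_abs, abs_of_nonneg (Real.rpow_nonneg hx0 r)] at hx
  have h3 : ∀ᶠ x : ℝ in atTop, (C : ℝ) ≤ x ^ (ε / 2) :=
    (tendsto_rpow_atTop (by positivity : 0 < ε / 2)).eventually_ge_atTop _
  have h4 := (tendsto_natCast_atTop_atTop (R := ℝ)).eventually
    (h2.and (h3.and (eventually_ge_atTop (1:ℝ))))
  obtain ⟨N, hN⟩ := eventually_atTop.1 h4
  refine ⟨N, fun n hn => ?_⟩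
  obtain ⟨ha, hb, hc⟩ := hN n hn.le
  have hn0 : (0:ℝ) < n := by linarith
  have hLnn : 0 ≤ Real.log n / (ε * Real.log 2) + 1 := by
    have := Real.log_nonneg hc
    positivity
  rw [abs_of_nonneg hLnn] at ha
  calc (C : ℝ) * (Real.log n / (ε * Real.log 2) + 1) ^ d
      ≤ (n : ℝ) ^ (ε / 2) * ((n : ℝ) ^ r) ^ d := by gcongr
    _ = (n : ℝ) ^ (ε / 2 + r * d) := by
        rw [← Real.rpow_natCast ((n : ℝ) ^ r) d, ← Real.rpow_mul hn0.le, ← Real.rpow_add hn0]
    _ ≤ (n : ℝ) ^ ε := by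
        apply Real.rpow_le_rpow_of_exponent_le hc
        rw [hr]
        have : ε / (2 * (d + 1)) * d ≤ ε / 2 := by
          rw [div_mul_eq_mul_div, div_le_div_iff₀ (by positivity) (by norm_num)]
          nlinarith [hε]
        linarith

lemma asymptotic (ε : ℝ) (hε : 0 < ε) (C d : ℕ) :
    ∃ N : ℕ, ∀ n c r : ℕ, N < n → 0 < c → (c : ℝ) ^ ε ≤ n →
      n ≤ C * (Nat.log 2 c + 1) ^ d * r → (n : ℝ) ^ (1 - ε) ≤ r := by
  obtain ⟨N, hN⟩ := eventually_bound ε hε C d
  refine ⟨N, fun n c r hn hc hcn hle => ?_⟩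
  have hlog2 : 0 < Real.log 2 := Real.log_pos (by norm_num)
  have hn0 : (0:ℝ) < n := by exact_mod_cast (Nat.zero_le N).trans_lt hn
  have hc0 : (0:ℝ) < c := by exact_mod_cast hc
  have h1 : (Nat.log 2 c : ℝ) ≤ Real.log n / (ε * Real.log 2) := by
    have h2 : (2:ℝ) ^ (Nat.log 2 c) ≤ c := by
      exact_mod_cast Nat.pow_log_le_self 2 (by omega)
    have h3 : (Nat.log 2 c : ℝ) * Real.log 2 ≤ Real.log c := by
      rw [← Real.log_pow]
      exact Real.log_le_log (by positivity) h2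
    have h4 : ε * Real.log c ≤ Real.log n := by
      rw [← Real.log_rpow hc0]
      exact Real.log_le_log (by positivity) hcn
    rw [le_div_iff₀ (by positivity)]
    nlinarith
  have h5 := hN n hn
  have h6 : (n : ℝ) ≤ (n : ℝ) ^ ε * r := by
    have h7 : (n : ℝ) ≤ C * ((Nat.log 2 c : ℝ) + 1) ^ d * r := by exact_mod_cast hle
    refine h7.trans ?_
    refine mul_le_mul_of_nonneg_right (le_trans ?_ h5) (Nat.cast_nonneg r)
    gcongr
  rw [Real.rpow_sub hn0, Real.rpow_one, div_le_iff₀ (by positivity)]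
  linarith [mul_comm ((n:ℝ) ^ ε) (r:ℝ)]

lemma irr_of_isIrreducible {F V G : Type*} [Field F] [AddCommGroup V] [Module F V] [Group G]
    (ρ : Representation F G V) [hρ : ρ.IsIrreducible] : Irr ρ := by
  intro W hW
  let S : Subrepresentation ρ := ⟨W, fun g v hv => hW g v hv⟩
  rcases hρ.eq_bot_or_eq_top S with h | h
  · left
    have := congrArg Subrepresentation.toSubmodule h
    exact this
  · right
    have := congrArg Subrepresentation.toSubmodule h
    exact this

end Helper75rk
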