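import Mathlib
import Pool.Agent.Helper75_rk.Sep
import Pool.Agent.Helper75_rk.Core0

/-!
# The rank bound from an abstract covering statement
-/

namespace Helper75rk

open Module

universe u v w

variable {F : Type u} {V : Type v} {G : Type w} [Field F] [AddCommGroup V] [Module F V]
  [FiniteDimensional F V] [Group G] [Finite G]

theorem rank_boundB (e q : ℕ) (B : ℕ → ℕ) (hcore : CoreBd.{w, u} F e q B)
    (ρ : Representation F G V) (hirr : Irr ρ)
    (A : Subgroup G) [A.Normal] (hcomm : ∀ a ∈ A, ∀ b ∈ A, a * b = b * a)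
    (hexp : ∀ a ∈ A, a ^ e = 1) (h : Fin q → G) (hh : ∀ i j, (h i)⁻¹ * h j ∈ A)
    (α : Fin q → F) (hf : ∑ l, α l • ρ (h l) ≠ 0) :
    finrank F V ≤ B (Nat.card A) *
      finrank F (LinearMap.range (∑ l, α l • ρ (h l) : V →ₗ[F] V)) := by
  classical
  have hq : Nonempty (Fin q) := by
    by_contra hcon
    rw [not_nonempty_iff] at hcon
    apply hf
    exact Finset.sum_eq_zero fun l _ => (hcon.false l).elim
  obtain ⟨i₀⟩ := hq
  let _ : CommGroup A := { (inferInstance : Group A) with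
    mul_comm := fun a b => Subtype.ext (hcomm a a.2 b b.2) }
  have hexp' : ∀ a : A, a ^ e = 1 := fun a => Subtype.ext (by simpa using hexp a a.2)
  set f : V →ₗ[F] V := ∑ l, α l • ρ (h l) with hfdef
  obtain ⟨T, hTc, hT⟩ := hcore A hexp' G
    (fun g l => (⟨g⁻¹ * ((h i₀)⁻¹ * h l) * g⁻¹⁻¹,
      Subgroup.Normal.conj_mem inferInstance _ (hh i₀ l) g⁻¹⟩ : A)) α
  refine (rank_of_cover ρ hirr f hf T ?_).trans (Nat.mul_le_mul_right _ hTc)
  let τ : MonoidAlgebra F A →ₐ[F] Module.End F V :=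
    MonoidAlgebra.lift F (Module.End F V) A (ρ.comp A.subtype)
  have hτ : ∀ g v, τ (∑ l, α l • MonoidAlgebra.of F A
      (⟨g⁻¹ * ((h i₀)⁻¹ * h l) * g⁻¹⁻¹,
      Subgroup.Normal.conj_mem inferInstance _ (hh i₀ l) g⁻¹⟩ : A)) v =
      ρ (g⁻¹ * (h i₀)⁻¹) (f (ρ g v)) := by
    intro g v
    rw [map_sum]
    simp only [hfdef, map_smul, τ, MonoidAlgebra.of_apply, MonoidAlgebra.lift_single, one_smul,
      LinearMap.sum_apply, LinearMap.smul_apply, MonoidHom.comp_apply, Subgroup.coe_subtype,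
      map_sum]
    apply Finset.sum_congr rfl
    intro l _
    congr 1
    rw [← Module.End.mul_apply, ← Module.End.mul_apply, ← map_mul, ← map_mul]
    congr 2
    group
  intro v hv g
  have h1 : ∀ z ∈ Ideal.span ((fun g : G => ∑ l, α l • MonoidAlgebra.of F A
      (⟨g⁻¹ * ((h i₀)⁻¹ * h l) * g⁻¹⁻¹,
      Subgroup.Normal.conj_mem inferInstance _ (hh i₀ l) g⁻¹⟩ : A)) '' (T : Set G)),
      τ z v = 0 := by
    intro z hz
    induction hz using Submodule.span_induction with
    | mem z hz =>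
      obtain ⟨t, ht, rfl⟩ := hz
      simp only
      rw [hτ, hv t ht, map_zero]
    | zero => simp
    | add a b _ _ ha hb => rw [map_add, LinearMap.add_apply, ha, hb, add_zero]
    | smul r a _ ha =>
      rw [smul_eq_mul, map_mul, Module.End.mul_apply, ha, map_zero]
  have h2 := h1 _ (hT g)
  rw [hτ] at h2
  have h3 := congrArg (ρ (g⁻¹ * (h i₀)⁻¹)⁻¹) h2
  rw [map_zero, ← Module.End.mul_apply, ← map_mul, inv_mul_cancel, map_one] at h3
  simpa using h3

/-- the bound, with hypotheses on the operators only -/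
theorem rank_boundB' (e q : ℕ) (B : ℕ → ℕ) (hB : Monotone B) (hcore : CoreBd.{w, u} F e q B)
    (ρ : Representation F G V) (hirr : Irr ρ)
    (A : Subgroup G) [A.Normal] (hcomm : ∀ a ∈ A, ∀ b ∈ A, ρ a * ρ b = ρ b * ρ a)
    (hexp : ∀ a ∈ A, ρ a ^ e = 1) (h : Fin q → G) (hh : ∀ i j, (h i)⁻¹ * h j ∈ A)
    (α : Fin q → F) (hf : ∑ l, α l • ρ (h l) ≠ 0) :
    finrank F V ≤ B (Nat.card G) *
      finrank F (LinearMap.range (∑ l, α l • ρ (h l) : V →ₗ[F] V)) := by
  let π := QuotientGroup.mk' ρ.ker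
  have hπ : Function.Surjective π := QuotientGroup.mk'_surjective _
  let ρ' : Representation F (G ⧸ ρ.ker) V := QuotientGroup.lift ρ.ker ρ (fun g hg => hg)
  have hρ' : ∀ g, ρ' (π g) = ρ g := fun g => rfl
  have hinj : ∀ x y : G ⧸ ρ.ker, ρ' x = ρ' y → x = y := by
    intro x y hxy
    obtain ⟨g, rfl⟩ := hπ x
    obtain ⟨k, rfl⟩ := hπ y
    rw [hρ', hρ'] at hxy
    refine QuotientGroup.eq.2 ?_
    rw [MonoidHom.mem_ker, map_mul, ← hxy, ← map_mul, inv_mul_cancel, map_one]
  have hirr' : Irr ρ' := by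
    intro W hW
    exact hirr W fun g w hw => hW (π g) w hw
  have hnorm : (A.map π).Normal := Subgroup.Normal.map inferInstance π hπ
  have h1 := rank_boundB e q B hcore ρ' hirr' (A.map π) (by
      rintro _ ⟨a, ha, rfl⟩ _ ⟨b, hb, rfl⟩
      apply hinj
      rw [map_mul ρ', map_mul ρ', hρ', hρ']
      exact hcomm a ha b hb) (by
      rintro _ ⟨a, ha, rfl⟩
      apply hinj
      rw [map_pow ρ', hρ', map_one ρ']
      exact hexp a ha) (fun l => π (h l)) (by
      intro i j
      exact ⟨(h i)⁻¹ * h j, hh i j, by simp⟩) α (by simpa only [hρ'] using hf)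
  have h2 : finrank F V ≤ B (Nat.card (A.map π)) *
      finrank F (LinearMap.range (∑ l, α l • ρ (h l) : V →ₗ[F] V)) := h1
  refine h2.trans (Nat.mul_le_mul_right _ (hB ?_))
  calc Nat.card (A.map π) ≤ Nat.card (G ⧸ ρ.ker) := Subgroup.card_le_card_group _
    _ ≤ Nat.card G := Nat.card_le_card_of_surjective _ hπ

theorem rank_bound_sepB (e q : ℕ) (B : ℕ → ℕ) (hB : Monotone B) (hcore : CoreBd.{w, u} F e q B)
    (ρ : Representation F G V) (hirr : Irr ρ) (E : Subgroup G) [E.Normal]
    (hE : ∀ x ∈ E, ∀ y ∈ E, ∃ c : F, ρ (x * y) = c • ρ (y * x))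
    (h : Fin q → G) (hh : ∀ i j, (h i)⁻¹ * h j ∈ E)
    (hexp : ∀ i j, ρ (((h i)⁻¹ * h j) ^ e) = 1)
    (α : Fin q → F) (hf : ∑ l, α l • ρ (h l) ≠ 0) :
    finrank F V ≤ 2 ^ q * B (Nat.card G) *
      finrank F (LinearMap.range (∑ l, α l • ρ (h l) : V →ₗ[F] V)) := by
  classical
  have hq : Nonempty (Fin q) := by
    by_contra hcon
    rw [not_nonempty_iff] at hcon
    apply hf
    exact Finset.sum_eq_zero fun l _ => (hcon.false l).elim
  obtain ⟨b⟩ := hq
  -- the subgroup of the elements of `E` of exponent `e` which commute with `E`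
  have hinv1 : ∀ g, ρ g * ρ g⁻¹ = 1 := fun g => by rw [← map_mul, mul_inv_cancel, map_one]
  have hinv2 : ∀ g, ρ g⁻¹ * ρ g = 1 := fun g => by rw [← map_mul, inv_mul_cancel, map_one]
  let A : Subgroup G :=
    { carrier := {a | a ∈ E ∧ (∀ y ∈ E, ρ a * ρ y = ρ y * ρ a) ∧ ρ a ^ e = 1}
      one_mem' := ⟨E.one_mem, by simp, by simp⟩
      mul_mem' := by
        rintro a b ⟨ha, ha2, ha3⟩ ⟨hb, hb2, hb3⟩
        refine ⟨E.mul_mem ha hb, ?_, ?_⟩
        · intro y hy
          rw [map_mul, mul_assoc, hb2 y hy, ← mul_assoc, ha2 y hy, mul_assoc]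
        · rw [map_mul, (show Commute (ρ a) (ρ b) from ha2 b hb).mul_pow, ha3, hb3, one_mul]
      inv_mem' := by
        rintro a ⟨ha, ha2, ha3⟩
        refine ⟨E.inv_mem ha, ?_, ?_⟩
        · intro y hy
          have := ha2 y hy
          calc ρ a⁻¹ * ρ y = ρ a⁻¹ * (ρ y * ρ a) * ρ a⁻¹ := by
                rw [mul_assoc, mul_assoc (ρ y), hinv1, mul_one]
            _ = ρ a⁻¹ * (ρ a * ρ y) * ρ a⁻¹ := by rw [this]
            _ = ρ y * ρ a⁻¹ := by rw [← mul_assoc (ρ a⁻¹), hinv2, one_mul]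
        · have h1 : ρ a⁻¹ ^ e * ρ a ^ e = 1 := by
            rw [← map_pow, ← map_pow, ← map_mul, inv_pow, inv_mul_cancel, map_one]
          rwa [ha3, mul_one] at h1 }
  have hAn : A.Normal := by
    refine ⟨?_⟩
    rintro a ⟨ha, ha2, ha3⟩ g
    refine ⟨Subgroup.Normal.conj_mem inferInstance a ha g, ?_, ?_⟩
    · intro y hy
      have hy' : g⁻¹ * y * g ∈ E := by
        have := Subgroup.Normal.conj_mem (inferInstance : E.Normal) y hy g⁻¹
        simpa using this
      have h1 := ha2 _ hy'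
      have h2 : ρ g * (ρ a * ρ (g⁻¹ * y * g)) * ρ g⁻¹ =
          ρ g * (ρ (g⁻¹ * y * g) * ρ a) * ρ g⁻¹ := by rw [h1]
      rw [← map_mul, ← map_mul, ← map_mul, ← map_mul, ← map_mul, ← map_mul] at h2
      rw [← map_mul, ← map_mul]
      convert h2 using 2 <;> group
    · rw [← map_pow, conj_pow, map_mul, map_mul, map_pow, ha3, mul_one, hinv1]
  -- scalars
  let x : Fin q → G := fun l => (h b)⁻¹ * h l
  have hxE : ∀ l, x l ∈ E := fun l => hh b l
  have hlam : ∀ y : G, ∀ l, ∃ c : F, y ∈ E → ρ y * ρ (x l) * ρ y⁻¹ = c • ρ (x l) := by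
    intro y l
    by_cases hy : y ∈ E
    · obtain ⟨c, hc⟩ := hE y hy (x l) (hxE l)
      refine ⟨c, fun _ => ?_⟩
      rw [← map_mul, hc, smul_mul_assoc, map_mul, mul_assoc, hinv1, mul_one]
    · exact ⟨0, fun h => absurd h hy⟩
  choose lam hlam using hlam
  -- classes
  let s : Setoid (Fin q) :=
    { r := fun i j => ∀ y ∈ E, lam y i = lam y j
      iseqv := ⟨fun _ _ _ => rfl, fun h y hy => (h y hy).symm,
        fun h1 h2 y hy => (h1 y hy).trans (h2 y hy)⟩ }
  have hf' : (∑ l, α l • ρ (x l) : Module.End F V) = ρ (h b)⁻¹ * ∑ l, α l • ρ (h l) := by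
    rw [Finset.mul_sum]
    apply Finset.sum_congr rfl
    intro l _
    rw [mul_smul_comm, ← map_mul]
  have hf'0 : (∑ l, α l • ρ (x l) : Module.End F V) ≠ 0 := by
    intro h0
    apply hf
    have := congrArg (fun z => ρ (h b) * z) (hf'.symm.trans h0)
    simp only [← mul_assoc, hinv1, one_mul, mul_zero] at this
    exact this
  obtain ⟨i₀, hi₀⟩ : ∃ i₀ : Fin q,
      (∑ l, (if (∀ y ∈ E, lam y l = lam y i₀) then α l else 0) • ρ (x l) : Module.End F V) ≠ 0 := by
    by_contra hcon
    push Not at hcon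
    apply hf'0
    rw [← Finset.sum_fiberwise Finset.univ (fun l => (Quotient.mk s l : Quotient s))]
    apply Finset.sum_eq_zero
    intro c _
    obtain ⟨i, rfl⟩ := Quotient.exists_rep c
    have h1 := hcon i
    rw [Finset.sum_filter]
    refine Eq.trans ?_ h1
    apply Finset.sum_congr rfl
    intro l _
    have : ((Quotient.mk s l : Quotient s) = Quotient.mk s i) ↔
        (∀ y ∈ E, lam y l = lam y i) := Quotient.eq (r := s)
    by_cases hc : ∀ y ∈ E, lam y l = lam y i
    · rw [if_pos (this.2 hc), if_pos hc]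
    · rw [if_neg (fun h => hc (this.1 h)), if_neg hc, zero_smul]
  obtain ⟨μ, hμ1, hμ0, hμS, hμr⟩ := sep q ρ E x α lam (fun y hy l => hlam y l hy) i₀
    (Finset.univ.filter fun l => ¬ ∀ y ∈ E, lam y l = lam y i₀) (by
      intro j hj
      have := (Finset.mem_filter.1 hj).2
      push Not at this
      exact this)
  set fC : Module.End F V :=
    ∑ l, (if (∀ y ∈ E, lam y l = lam y i₀) then α l else 0) • ρ (x l) with hfC
  have hμeq : (∑ l, (α l * μ l) • ρ (x l) : Module.End F V) = μ i₀ • fC := by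
    rw [hfC, Finset.smul_sum]
    apply Finset.sum_congr rfl
    intro l _
    rw [smul_smul]
    congr 1
    by_cases hc : ∀ y ∈ E, lam y l = lam y i₀
    · rw [if_pos hc, hμ1 l hc, mul_comm]
    · rw [if_neg hc, hμS l (Finset.mem_filter.2 ⟨Finset.mem_univ _, hc⟩), mul_zero, mul_zero]
  have hr1 : rk fC ≤ 2 ^ q * rk (∑ l, α l • ρ (h l) : Module.End F V) := by
    have h1 : rk fC ≤ rk (μ i₀ • fC) := by
      have := rk_smul_le (μ i₀)⁻¹ (μ i₀ • fC)
      rwa [smul_smul, inv_mul_cancel₀ hμ0, one_smul] at this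
    rw [hμeq] at hμr
    refine h1.trans (hμr.trans ?_)
    refine Nat.mul_le_mul (Nat.pow_le_pow_right (by norm_num) ?_) ?_
    · exact (Finset.card_le_univ _).trans (by simp)
    · rw [hf']; exact rk_mul_left_le _ _
  -- apply the abelian case
  let x' : Fin q → G := fun l => if (∀ y ∈ E, lam y l = lam y i₀) then x l else x i₀
  let α' : Fin q → F := fun l => if (∀ y ∈ E, lam y l = lam y i₀) then α l else 0
  have hfC2 : (∑ l, α' l • ρ (x' l) : Module.End F V) = fC := by
    rw [hfC]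
    apply Finset.sum_congr rfl
    intro l _
    simp only [α', x']
    split_ifs with hc
    · rfl
    · rw [zero_smul, zero_smul]
  have hmem : ∀ i j, (∀ y ∈ E, lam y i = lam y j) → (x i)⁻¹ * x j ∈ A := by
    intro i j hij
    refine ⟨E.mul_mem (E.inv_mem (hxE i)) (hxE j), ?_, ?_⟩
    · intro y hy
      have h1 := hlam y i hy
      have h2 := hlam y j hy
      have hzero : lam y i ≠ 0 ∨ Subsingleton V := by
        by_cases hc : lam y i = 0
        · right
          rw [hc, zero_smul] at h1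
          have h3 : (1 : Module.End F V) = 0 := by
            calc (1 : Module.End F V) = ρ (x i)⁻¹ * (ρ y⁻¹ * (ρ y * ρ (x i) * ρ y⁻¹) * ρ y) := by
                  simp only [← map_mul]
                  rw [← map_one ρ]
                  congr 1
                  group
              _ = 0 := by rw [h1]; simp
          refine ⟨fun u v => ?_⟩
          have := LinearMap.congr_fun h3 u
          have h4 := LinearMap.congr_fun h3 v
          simp only [Module.End.one_apply, LinearMap.zero_apply] at this h4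
          rw [this, h4]
        · exact Or.inl hc
      rcases hzero with hne | hsub
      · have h5 : ρ y * ρ (x i) = lam y i • (ρ (x i) * ρ y) := by
          calc ρ y * ρ (x i) = (ρ y * ρ (x i) * ρ y⁻¹) * ρ y := by
                rw [mul_assoc, hinv2, mul_one]
            _ = _ := by rw [h1, smul_mul_assoc]
        have h6 : ρ y * ρ (x j) = lam y i • (ρ (x j) * ρ y) := by
          calc ρ y * ρ (x j) = (ρ y * ρ (x j) * ρ y⁻¹) * ρ y := by
                rw [mul_assoc, hinv2, mul_one]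
            _ = _ := by rw [h2, smul_mul_assoc, hij y hy]
        have h7 : ρ (x i)⁻¹ * ρ y = lam y i • (ρ y * ρ (x i)⁻¹) := by
          calc ρ (x i)⁻¹ * ρ y = ρ (x i)⁻¹ * (ρ y * ρ (x i)) * ρ (x i)⁻¹ := by
                rw [mul_assoc, mul_assoc (ρ y), hinv1, mul_one]
            _ = _ := by
                rw [h5, mul_smul_comm, smul_mul_assoc, ← mul_assoc, hinv2, one_mul]
        rw [map_mul]
        have h8 : lam y i • (ρ y * (ρ (x i)⁻¹ * ρ (x j))) =
            lam y i • (ρ (x i)⁻¹ * ρ (x j) * ρ y) := by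
          rw [← mul_assoc, ← smul_mul_assoc, ← h7, mul_assoc, h6, mul_smul_comm, mul_assoc]
        have h9 := congrArg (fun z => (lam y i)⁻¹ • z) h8
        simp only [smul_smul, inv_mul_cancel₀ hne, one_smul] at h9
        exact h9.symm
      · exact LinearMap.ext fun v => Subsingleton.elim _ _
    · rw [← map_pow]
      have : (x i)⁻¹ * x j = (h i)⁻¹ * h j := by simp only [x]; group
      rw [this]
      exact hexp i j
  have hx'mem : ∀ i j, (x' i)⁻¹ * x' j ∈ A := by
    intro i j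
    simp only [x']
    split_ifs with h1 h2 h2
    · exact hmem i j fun y hy => (h1 y hy).trans (h2 y hy).symm
    · exact hmem i i₀ h1
    · exact hmem i₀ j fun y hy => (h2 y hy).symm
    · rw [inv_mul_cancel]; exact A.one_mem
  have hfin := rank_boundB' e q B hB hcore ρ hirr A (fun a ha b hb => ha.2.1 b hb.1)
    (fun a ha => ha.2.2) x' hx'mem α' (by rw [hfC2]; exact hi₀)
  rw [hfC2] at hfin
  calc finrank F V ≤ B (Nat.card G) * rk fC := hfin
    _ ≤ B (Nat.card G) * (2 ^ q * rk (∑ l, α l • ρ (h l) : Module.End F V)) :=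
        Nat.mul_le_mul_left _ hr1
    _ = _ := by rw [← mul_assoc, mul_comm (B _)]; rfl

end Helper75rk
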