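import Mathlib

/-!
# Sums of few Kronecker products of invertible matrices
-/

namespace Helper75rk

open Finset

section Kron
variable {F : Type*} [Field F] {I : Type*} [Fintype I] [DecidableEq I] {ι : I → Type*}
  [∀ i, Fintype (ι i)] [∀ i, DecidableEq (ι i)]

/-- Kronecker product of a family of matrices -/
def kr (M : ∀ i, Matrix (ι i) (ι i) F) : Matrix (∀ i, ι i) (∀ i, ι i) F :=
  Matrix.of fun x y => ∏ i, M i (x i) (y i)

lemma kr_apply (M : ∀ i, Matrix (ι i) (ι i) F) (x y : ∀ i, ι i) :
    kr M x y = ∏ i, M i (x i) (y i) := rfl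

lemma kr_mul (M N : ∀ i, Matrix (ι i) (ι i) F) : kr M * kr N = kr (fun i => M i * N i) := by
  ext x y
  simp only [Matrix.mul_apply, kr_apply]
  rw [Finset.prod_univ_sum]
  rw [Fintype.piFinset_univ]
  apply Finset.sum_congr rfl
  intro z _
  rw [← Finset.prod_mul_distrib]

lemma kr_one : kr (fun i => (1 : Matrix (ι i) (ι i) F)) = 1 := by
  ext x y
  rw [kr_apply, Matrix.one_apply]
  simp only [Matrix.one_apply]
  by_cases h : x = y
  · subst h; simp
  · rw [if_neg h]
    obtain ⟨i, hi⟩ := Function.ne_iff.1 h
    exact Finset.prod_eq_zero (Finset.mem_univ i) (by rw [if_neg hi])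

lemma kr_update_apply (M : ∀ i, Matrix (ι i) (ι i) F) (i : I) (X : Matrix (ι i) (ι i) F)
    (x y : ∀ i, ι i) : kr (Function.update M i X) x y =
      X (x i) (y i) * ∏ j ∈ univ.erase i, M j (x j) (y j) := by
  rw [kr_apply, ← Finset.mul_prod_erase univ _ (Finset.mem_univ i)]
  congr 1
  · simp
  · apply Finset.prod_congr rfl
    intro j hj
    rw [Function.update_of_ne (Finset.ne_of_mem_erase hj)]

lemma kr_eq_update (M : ∀ i, Matrix (ι i) (ι i) F) (i : I) (x y : ∀ i, ι i) :
    kr M x y = M i (x i) (y i) * ∏ j ∈ univ.erase i, M j (x j) (y j) := by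
  rw [kr_apply, ← Finset.mul_prod_erase univ _ (Finset.mem_univ i)]

variable {κ : Type*}

/-- the combination -/
def cb (S : Finset κ) (α : κ → F) (M : κ → ∀ i, Matrix (ι i) (ι i) F) :
    Matrix (∀ i, ι i) (∀ i, ι i) F := ∑ l ∈ S, α l • kr (M l)

lemma cb_apply (S : Finset κ) (α : κ → F) (M : κ → ∀ i, Matrix (ι i) (ι i) F)
    (x y : ∀ i, ι i) : cb S α M x y = ∑ l ∈ S, α l * kr (M l) x y := by
  simp [cb, Matrix.sum_apply]

/-- contraction at the factor `i` -/
def ct (S : Finset κ) (α : κ → F) (M : κ → ∀ i, Matrix (ι i) (ι i) F) (i : I)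
    (w v : ι i → F) : Matrix (∀ i, ι i) (∀ i, ι i) F :=
  cb S (fun l => α l * (w ⬝ᵥ (M l i).mulVec v)) (fun l => Function.update (M l) i 1)

lemma mrank_add_le {m n : Type*} [Fintype m] [Fintype n] (A B : Matrix m n F) :
    (A + B).rank ≤ A.rank + B.rank := by
  unfold Matrix.rank
  rw [Matrix.mulVecLin_add]
  have h : LinearMap.range (A.mulVecLin + B.mulVecLin) ≤
      LinearMap.range A.mulVecLin ⊔ LinearMap.range B.mulVecLin := by
    rintro _ ⟨x, rfl⟩
    exact Submodule.add_mem_sup ⟨x, rfl⟩ ⟨x, rfl⟩
  exact (Submodule.finrank_mono h).trans (Submodule.finrank_add_le_finrank_add_finrank _ _)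

lemma rank_sum_le {m n : Type*} [Fintype m] [Fintype n] [DecidableEq n] {κ : Type*} (S : Finset κ)
    (f : κ → Matrix m n F) (r : ℕ) (h : ∀ k ∈ S, (f k).rank ≤ r) :
    (∑ k ∈ S, f k).rank ≤ S.card * r := by
  classical
  induction S using Finset.induction_on with
  | empty => simp
  | insert a S ha ih =>
    rw [Finset.sum_insert ha, Finset.card_insert_of_notMem ha]
    have h1 := mrank_add_le (f a) (∑ k ∈ S, f k)
    have h2 := h a (Finset.mem_insert_self _ _)
    have h3 := ih fun k hk => h k (Finset.mem_insert_of_mem hk)
    calc _ ≤ (f a).rank + (∑ k ∈ S, f k).rank := h1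
      _ ≤ r + S.card * r := by omega
      _ = _ := by ring

lemma rank_ct_le (S : Finset κ) (α : κ → F) (M : κ → ∀ i, Matrix (ι i) (ι i) F) (i : I)
    (w v : ι i → F) : (ct S α M i w v).rank ≤ Fintype.card (ι i) * (cb S α M).rank := by
  classical
  have h1 : ct S α M i w v = ∑ a : ι i,
      kr (Function.update (fun j => (1 : Matrix (ι j) (ι j) F)) i
        (Matrix.of fun x y => if x = a then w y else 0)) * cb S α M *
      kr (Function.update (fun j => (1 : Matrix (ι j) (ι j) F)) i
        (Matrix.of fun x y => if y = a then v x else 0)) := by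
    have h2 : ∀ (l : κ) (a : ι i),
        kr (Function.update (fun j => (1 : Matrix (ι j) (ι j) F)) i
          (Matrix.of fun x y => if x = a then w y else 0)) * kr (M l) *
        kr (Function.update (fun j => (1 : Matrix (ι j) (ι j) F)) i
          (Matrix.of fun x y => if y = a then v x else 0)) =
        kr (Function.update (M l) i
          (Matrix.of fun x y => if x = a ∧ y = a then w ⬝ᵥ (M l i).mulVec v else 0)) := by
      intro l a
      rw [kr_mul, kr_mul]
      congr 1
      funext j
      by_cases hj : j = i
      · subst hj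
        simp only [Function.update_self]
        ext x y
        simp only [Matrix.mul_apply, Matrix.of_apply, dotProduct, Matrix.mulVec]
        by_cases hx : x = a
        · by_cases hy : y = a
          · simp only [hx, hy, if_true, and_self]
            simp only [Finset.sum_mul, Finset.mul_sum]
            rw [Finset.sum_comm]
            apply Finset.sum_congr rfl; intro b _
            apply Finset.sum_congr rfl; intro c _
            ring
          · simp [hy]
        · simp [hx]
      · simp only [Function.update_of_ne hj, one_mul, mul_one]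
    ext x y
    rw [Matrix.sum_apply]
    simp only [ct, cb_apply]
    have h3 : ∀ a : ι i, (kr (Function.update (fun j => (1 : Matrix (ι j) (ι j) F)) i
          (Matrix.of fun x y => if x = a then w y else 0)) * cb S α M *
        kr (Function.update (fun j => (1 : Matrix (ι j) (ι j) F)) i
          (Matrix.of fun x y => if y = a then v x else 0))) x y =
        ∑ l ∈ S, α l * kr (Function.update (M l) i
          (Matrix.of fun x y => if x = a ∧ y = a then w ⬝ᵥ (M l i).mulVec v else 0)) x y := by
      intro a
      rw [cb, Finset.mul_sum, Finset.sum_mul, Matrix.sum_apply]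
      apply Finset.sum_congr rfl
      intro l _
      rw [Matrix.mul_smul, Matrix.smul_mul, h2, Matrix.smul_apply, smul_eq_mul]
    simp only [h3]
    rw [Finset.sum_comm]
    apply Finset.sum_congr rfl
    intro l _
    rw [← Finset.mul_sum, mul_assoc]
    congr 1
    simp only [kr_update_apply, Matrix.of_apply, Matrix.one_apply]
    rw [← Finset.sum_mul, ← mul_assoc]
    congr 1
    by_cases hxy : x i = y i
    · simp [hxy]
    · have : ∀ a : ι i, ¬ (x i = a ∧ y i = a) := fun a h => hxy (h.1.trans h.2.symm)
      simp [hxy, this]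
  rw [h1]
  refine (rank_sum_le _ _ (cb S α M).rank ?_).trans (by rw [Finset.card_univ])
  intro a _
  exact (Matrix.rank_mul_le_left _ _).trans (Matrix.rank_mul_le_right _ _)

/-- if all contractions which kill the first term vanish then the combination is a multiple of the
first term: the case in which the first term is the identity -/
lemma scalar_of_ct (S : Finset κ) (α : κ → F) (N : κ → ∀ i, Matrix (ι i) (ι i) F)
    (h : ∀ i (w v : ι i → F), w ⬝ᵥ v = 0 → ct S α N i w v = 0) :
    ∃ c : F, cb S α N = c • (1 : Matrix (∀ i, ι i) (∀ i, ι i) F) := by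
  classical
  -- off-diagonal entries
  have hoff : ∀ x y : ∀ i, ι i, x ≠ y → cb S α N x y = 0 := by
    intro x y hxy
    obtain ⟨i, hi⟩ := Function.ne_iff.1 hxy
    have h1 := h i (Pi.single (x i) 1) (Pi.single (y i) 1) (by
      simp [Pi.single_apply, Ne.symm hi, hi])
    have h2 := congrFun (congrFun h1 x) (Function.update y i (x i))
    rw [ct, cb_apply, Matrix.zero_apply] at h2
    rw [cb_apply, ← h2]
    apply Finset.sum_congr rfl
    intro l _
    rw [kr_eq_update _ i, kr_update_apply, mul_assoc]
    congr 1
    rw [Function.update_self, Matrix.one_apply_eq, one_mul]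
    simp only [Matrix.mulVec_single_one, single_one_dotProduct, Matrix.col_apply]
    congr 1
    apply Finset.prod_congr rfl
    intro j hj
    rw [Function.update_of_ne (Finset.ne_of_mem_erase hj)]
  -- diagonal entries
  have hdiag : ∀ (x : ∀ i, ι i) (i : I) (b : ι i), b ≠ x i →
      cb S α N x x = cb S α N (Function.update x i b) (Function.update x i b) := by
    intro x i b hb
    have h1 := h i (Pi.single (x i) 1 - Pi.single b 1) (Pi.single (x i) 1 + Pi.single b 1) (by
      simp [Pi.single_apply, hb, Ne.symm hb])
    have h2 := congrFun (congrFun h1 x) x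
    rw [ct, cb_apply, Matrix.zero_apply] at h2
    have hne : Function.update x i b ≠ x := by
      intro h3
      have := congrFun h3 i
      rw [Function.update_self] at this
      exact hb this
    have e1 := hoff x (Function.update x i b) (Ne.symm hne)
    have e2 := hoff (Function.update x i b) x hne
    have key : ∀ l, α l * ((Pi.single (x i) 1 - Pi.single b 1) ⬝ᵥ
        (N l i).mulVec (Pi.single (x i) 1 + Pi.single b 1)) * kr (Function.update (N l) i 1) x x =
        α l * kr (N l) x x + α l * kr (N l) x (Function.update x i b) -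
        α l * kr (N l) (Function.update x i b) x -
        α l * kr (N l) (Function.update x i b) (Function.update x i b) := by
      intro l
      have hp1 : ∏ j ∈ univ.erase i, N l j (x j) (Function.update x i b j) =
          ∏ j ∈ univ.erase i, N l j (x j) (x j) :=
        Finset.prod_congr rfl fun j hj => by
          rw [Function.update_of_ne (Finset.ne_of_mem_erase hj)]
      have hp2 : ∏ j ∈ univ.erase i, N l j (Function.update x i b j) (x j) =
          ∏ j ∈ univ.erase i, N l j (x j) (x j) :=
        Finset.prod_congr rfl fun j hj => by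
          rw [Function.update_of_ne (Finset.ne_of_mem_erase hj)]
      have hp3 : ∏ j ∈ univ.erase i, N l j (Function.update x i b j) (Function.update x i b j) =
          ∏ j ∈ univ.erase i, N l j (x j) (x j) :=
        Finset.prod_congr rfl fun j hj => by
          rw [Function.update_of_ne (Finset.ne_of_mem_erase hj)]
      rw [kr_update_apply, kr_eq_update (N l) i x x, kr_eq_update (N l) i x _,
        kr_eq_update (N l) i _ x, kr_eq_update (N l) i (Function.update x i b) _, hp1, hp2, hp3]
      simp only [Function.update_self, Matrix.one_apply_eq, one_mul, sub_dotProduct,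
        Matrix.mulVec_add, Matrix.mulVec_single_one, single_one_dotProduct, Pi.add_apply,
        Matrix.col_apply]
      ring
    rw [Finset.sum_congr rfl fun l _ => key l, Finset.sum_sub_distrib, Finset.sum_sub_distrib,
      Finset.sum_add_distrib, ← cb_apply, ← cb_apply, ← cb_apply, ← cb_apply, e1, e2] at h2
    linear_combination h2
  have hall : ∀ x y : ∀ i, ι i, cb S α N x x = cb S α N y y := by
    intro x y
    have : ∀ T : Finset I, cb S α N x x =
        cb S α N (fun i => if i ∈ T then y i else x i) (fun i => if i ∈ T then y i else x i) := by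
      intro T
      induction T using Finset.induction_on with
      | empty => simp
      | insert a T ha ih =>
        rw [ih]
        have h1 : (fun i => if i ∈ insert a T then y i else x i) =
            Function.update (fun i => if i ∈ T then y i else x i) a (y a) := by
          funext j
          by_cases hj : j = a
          · subst hj; simp
          · rw [Function.update_of_ne hj]; simp [hj]
        rw [h1]
        by_cases hya : y a = (fun i => if i ∈ T then y i else x i) a
        · rw [hya, Function.update_eq_self]
        · exact hdiag _ a (y a) hya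
    rw [this univ]; simp
  by_cases hne : Nonempty (∀ i, ι i)
  · obtain ⟨x₀⟩ := hne
    refine ⟨cb S α N x₀ x₀, ?_⟩
    ext x y
    rw [Matrix.smul_apply, Matrix.one_apply, smul_eq_mul]
    by_cases hxy : x = y
    · subst hxy; rw [if_pos rfl, mul_one]; exact hall _ _
    · rw [if_neg hxy, mul_zero]; exact hoff x y hxy
  · refine ⟨0, ?_⟩
    ext x y
    exact (hne ⟨x⟩).elim

lemma isUnit_kr (P : ∀ i, Matrix (ι i) (ι i) F) (hP : ∀ i, IsUnit (P i)) : IsUnit (kr P) := by
  have h1 : ∀ i, P i * (P i)⁻¹ = 1 := fun i =>
    Matrix.mul_nonsing_inv _ ((Matrix.isUnit_iff_isUnit_det _).1 (hP i))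
  have h2 : ∀ i, (P i)⁻¹ * P i = 1 := fun i =>
    Matrix.nonsing_inv_mul _ ((Matrix.isUnit_iff_isUnit_det _).1 (hP i))
  refine ⟨⟨kr P, kr fun i => (P i)⁻¹, ?_, ?_⟩, rfl⟩
  · rw [kr_mul]; simp only [h1]; exact kr_one
  · rw [kr_mul]; simp only [h2]; exact kr_one

/-- the main bound -/
theorem card_le_rank (d : ℕ) (hd1 : 1 ≤ d) (hd : ∀ i, Fintype.card (ι i) ≤ d) (q : ℕ) :
    ∀ (S : Finset κ) (α : κ → F) (M : κ → ∀ i, Matrix (ι i) (ι i) F), S.card ≤ q →
      (∀ l ∈ S, ∀ i, IsUnit (M l i)) → cb S α M ≠ 0 →
      Fintype.card (∀ i, ι i) ≤ d ^ (q - 1) * (cb S α M).rank := by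
  classical
  induction q with
  | zero =>
    intro S α M hS _ hne
    have : S = ∅ := Finset.card_eq_zero.1 (Nat.le_zero.1 hS)
    subst this
    exact absurd (by simp [cb]) hne
  | succ q ih =>
    intro S α M hS hM hne
    rcases S.eq_empty_or_nonempty with rfl | ⟨l₀, hl₀⟩
    · exact absurd (by simp [cb]) hne
    -- reduction to the case in which the first term is the identity
    have hdet : ∀ i, IsUnit (M l₀ i).det := fun i =>
      (Matrix.isUnit_iff_isUnit_det _).1 (hM l₀ hl₀ i)
    set N : κ → ∀ i, Matrix (ι i) (ι i) F := fun l i => (M l₀ i)⁻¹ * M l i with hN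
    have hN0 : N l₀ = fun i => 1 := by
      funext i; exact Matrix.nonsing_inv_mul _ (hdet i)
    have hNu : ∀ l ∈ S, ∀ i, IsUnit (N l i) := by
      intro l hl i
      refine IsUnit.mul ?_ (hM l hl i)
      rw [Matrix.isUnit_nonsing_inv_iff]
      exact hM l₀ hl₀ i
    have hMN : cb S α M = kr (M l₀) * cb S α N := by
      rw [cb, cb, Finset.mul_sum]
      apply Finset.sum_congr rfl
      intro l _
      rw [Matrix.mul_smul, kr_mul]
      congr 2
      funext i
      rw [hN, Matrix.mul_nonsing_inv_cancel_left _ _ (hdet i)]
    have hrank : (cb S α M).rank = (cb S α N).rank := by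
      rw [hMN]
      exact Matrix.rank_mul_eq_right_of_isUnit_det _ _
        ((Matrix.isUnit_iff_isUnit_det _).1 (isUnit_kr _ (hM l₀ hl₀)))
    have hNne : cb S α N ≠ 0 := by
      intro h0
      exact hne (by rw [hMN, h0, mul_zero])
    rw [hrank, Nat.add_sub_cancel]
    by_cases hct : ∀ i (w v : ι i → F), w ⬝ᵥ v = 0 → ct S α N i w v = 0
    · obtain ⟨c, hc⟩ := scalar_of_ct S α N hct
      have hc0 : c ≠ 0 := by
        rintro rfl
        exact hNne (by rw [hc, zero_smul])
      rw [hc, Matrix.rank_smul_of_mem_nonZeroDivisors _ (mem_nonZeroDivisors_of_ne_zero hc0),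
        Matrix.rank_one]
      exact Nat.le_mul_of_pos_left _ (Nat.pow_pos hd1)
    · push Not at hct
      obtain ⟨i, w, v, hwv, hne'⟩ := hct
      have hct2 : ct S α N i w v = cb (S.erase l₀) (fun l => α l * (w ⬝ᵥ (N l i).mulVec v))
          (fun l => Function.update (N l) i 1) := by
        rw [ct, cb, cb, ← Finset.add_sum_erase S _ hl₀]
        have : (w ⬝ᵥ (N l₀ i).mulVec v) = 0 := by
          rw [hN0, Matrix.one_mulVec, hwv]
        rw [this, mul_zero, zero_smul, zero_add]
      have hcard : (S.erase l₀).card ≤ q := by
        rw [Finset.card_erase_of_mem hl₀]; omega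
      have hq : 1 ≤ q := by
        by_contra hq
        have : S.erase l₀ = ∅ := Finset.card_eq_zero.1 (by omega)
        rw [hct2, this] at hne'
        exact hne' (by simp [cb])
      have h1 := ih (S.erase l₀) (fun l => α l * (w ⬝ᵥ (N l i).mulVec v))
        (fun l => Function.update (N l) i 1) hcard (by
          intro l hl j
          by_cases hj : j = i
          · subst hj; rw [Function.update_self]; exact isUnit_one
          · rw [Function.update_of_ne hj]
            exact hNu l (Finset.mem_of_mem_erase hl) j) (by rw [← hct2]; exact hne')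
      rw [← hct2] at h1
      have h2 := rank_ct_le S α N i w v
      calc _ ≤ d ^ (q - 1) * (ct S α N i w v).rank := h1
        _ ≤ d ^ (q - 1) * (d * (cb S α N).rank) := by
          apply Nat.mul_le_mul_left
          exact h2.trans (Nat.mul_le_mul_right _ (hd i))
        _ = d ^ q * (cb S α N).rank := by
          obtain ⟨r, rfl⟩ : ∃ r, q = r + 1 := ⟨q - 1, by omega⟩
          rw [Nat.add_sub_cancel]; ring

end Kron

end Helper75rk
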