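import Mathlib
import Pool.Agent.Helper75_rk.Tensor

/-!
# Sums of few operators which permute the factors of a tensor power
-/

namespace Helper75rk

open Finset

section Perm
variable {F : Type*} [Field F] {I : Type*} [Fintype I] [DecidableEq I] {K : Type*} [Fintype K]
  [DecidableEq K]

/-- Kronecker product of matrices composed with a permutation of the factors -/
def gp (M : I → Matrix K K F) (σ : Equiv.Perm I) : Matrix (I → K) (I → K) F :=
  Matrix.of fun x y => ∏ i, M i (x i) (y (σ i))

lemma gp_apply (M : I → Matrix K K F) (σ : Equiv.Perm I) (x y : I → K) :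
    gp M σ x y = ∏ i, M i (x i) (y (σ i)) := rfl

lemma bil (N c : Matrix K K F) (h : ∀ w v : K → F, w ⬝ᵥ N.mulVec v = 0 → w ⬝ᵥ c.mulVec v = 0)
    (p0 q0 p q : K) (h0 : N p0 q0 ≠ 0) : c p q * N p0 q0 = N p q * c p0 q0 := by
  have h1 := h (N p0 q0 • Pi.single p 1 - N p q0 • Pi.single p0 1) (Pi.single q0 1) (by
    simp [sub_dotProduct, smul_dotProduct]; ring)
  have h2 := h (Pi.single p0 1) (N p0 q0 • Pi.single q 1 - N p0 q • Pi.single q0 1) (by
    simp [Matrix.mulVec_sub, Matrix.mulVec_smul]; ring)
  have h3 := h (N p0 q0 • Pi.single p 1 + (1 - N p q0) • Pi.single p0 1)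
    (N p0 q0 • Pi.single q 1 - (N p0 q + (N p0 q0 * N p q - N p q0 * N p0 q)) • Pi.single q0 1) (by
    simp [Matrix.mulVec_sub, Matrix.mulVec_smul, add_dotProduct, smul_dotProduct]; ring)
  simp [Matrix.mulVec_sub, Matrix.mulVec_smul, add_dotProduct, sub_dotProduct,
    smul_dotProduct] at h1 h2 h3
  have h4 : N p0 q0 * (c p q * N p0 q0 - N p q * c p0 q0) = 0 := by
    linear_combination h3 + (N p0 q + (N p0 q0 * N p q - N p q0 * N p0 q)) * h1 -
      (1 - N p q0) * h2
  rcases mul_eq_zero.1 h4 with h5 | h5
  · exact absurd h5 h0
  · exact sub_eq_zero.1 h5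

lemma kr_mul_gp (A M : I → Matrix K K F) (σ : Equiv.Perm I) :
    kr A * gp M σ = gp (fun i => A i * M i) σ := by
  ext x y
  simp only [Matrix.mul_apply, kr_apply, gp_apply]
  rw [Finset.prod_univ_sum, Fintype.piFinset_univ]
  apply Finset.sum_congr rfl
  intro z _
  rw [← Finset.prod_mul_distrib]

lemma gp_mul_kr (M B : I → Matrix K K F) (σ : Equiv.Perm I) :
    gp M σ * kr B = gp (fun i => M i * B (σ i)) σ := by
  ext x y
  simp only [Matrix.mul_apply, kr_apply, gp_apply]
  rw [Finset.prod_univ_sum, Fintype.piFinset_univ]
  refine Fintype.sum_equiv (Equiv.arrowCongr σ.symm (Equiv.refl K)) _ _ ?_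
  intro z
  rw [← Equiv.prod_comp σ (fun j => B j (z j) (y j)), ← Finset.prod_mul_distrib]
  rfl

lemma rank_gp (M : I → Matrix K K F) (σ : Equiv.Perm I) : (gp M σ).rank = (kr M).rank := by
  have h : gp M σ = (kr M).submatrix (Equiv.refl _) (Equiv.arrowCongr σ.symm (Equiv.refl K)) := by
    ext x y
    rfl
  rw [h, Matrix.rank_submatrix]

lemma card_le_rank_single (d : ℕ) (hd1 : 1 ≤ d) (hd : Fintype.card K ≤ d) (r : ℕ) :
    ∀ M : I → Matrix K K F, (∃ D : Finset I, D.card ≤ r ∧ ∀ i ∉ D, IsUnit (M i)) → kr M ≠ 0 →
      Fintype.card (I → K) ≤ d ^ r * (kr M).rank := by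
  classical
  induction r with
  | zero =>
    rintro M ⟨D, hD, hM⟩ _
    have : D = ∅ := Finset.card_eq_zero.1 (Nat.le_zero.1 hD)
    subst this
    rw [Matrix.rank_of_isUnit _ (isUnit_kr M fun i => hM i (by simp))]
    simp
  | succ r ih =>
    rintro M ⟨D, hD, hM⟩ hne
    rcases D.eq_empty_or_nonempty with rfl | ⟨i, hi⟩
    · refine (ih M ⟨∅, by simp, hM⟩ hne).trans (Nat.mul_le_mul_right _ ?_)
      exact Nat.pow_le_pow_right hd1 (Nat.le_succ r)
    · -- a nonzero entry
      obtain ⟨x, y, hxy⟩ : ∃ x y, kr M x y ≠ 0 := by
        by_contra hcon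
        push Not at hcon
        exact hne (by ext x y; exact hcon x y)
      have h1 : kr (Function.update M i 1) ≠ 0 := by
        intro h0
        have h2 := congrFun (congrFun h0 x) (Function.update y i (x i))
        rw [kr_update_apply, Function.update_self, Matrix.one_apply_eq, one_mul,
          Matrix.zero_apply] at h2
        apply hxy
        rw [kr_eq_update M i]
        have h3 : ∏ j ∈ univ.erase i, M j (x j) (Function.update y i (x i) j) =
            ∏ j ∈ univ.erase i, M j (x j) (y j) :=
          Finset.prod_congr rfl fun j hj => by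
            rw [Function.update_of_ne (Finset.ne_of_mem_erase hj)]
        rw [← h3, h2, mul_zero]
      have hent : M i (x i) (y i) ≠ 0 := by
        intro h0
        exact hxy (by rw [kr_eq_update M i, h0, zero_mul])
      have h2 := ih (Function.update M i 1) ⟨D.erase i, by
          rw [Finset.card_erase_of_mem hi]; omega, fun j hj => by
          by_cases hji : j = i
          · subst hji; rw [Function.update_self]; exact isUnit_one
          · rw [Function.update_of_ne hji]
            exact hM j fun hjD => hj (Finset.mem_erase.2 ⟨hji, hjD⟩)⟩ h1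
      have h3 := rank_ct_le (Finset.univ : Finset Unit) (fun _ => (1 : F)) (fun _ => M) i
        (Pi.single (x i) 1) (Pi.single (y i) 1)
      have h4 : ct (Finset.univ : Finset Unit) (fun _ => (1 : F)) (fun _ => M) i
          (Pi.single (x i) 1) (Pi.single (y i) 1) =
          M i (x i) (y i) • kr (Function.update M i 1) := by
        simp [ct, cb]
      have h5 : cb (Finset.univ : Finset Unit) (fun _ => (1 : F)) (fun _ => M) = kr M := by
        simp [cb]
      rw [h4, h5, Matrix.rank_smul_of_mem_nonZeroDivisors _
        (mem_nonZeroDivisors_of_ne_zero hent)] at h3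
      calc _ ≤ d ^ r * (kr (Function.update M i 1)).rank := h2
        _ ≤ d ^ r * (d * (kr M).rank) := by
          apply Nat.mul_le_mul_left
          exact h3.trans (Nat.mul_le_mul_right _ hd)
        _ = d ^ (r + 1) * (kr M).rank := by ring

variable {κ : Type*}

/-- the combination -/
def cg (S : Finset κ) (α : κ → F) (M : κ → I → Matrix K K F) (σ : κ → Equiv.Perm I) :
    Matrix (I → K) (I → K) F := ∑ l ∈ S, α l • gp (M l) (σ l)

/-- left and right factors -/
def lf (a : I) (k : K) (w : K → F) : I → Matrix K K F :=
  Function.update (fun _ => 1) a (Matrix.of fun x y => if x = k then w y else 0)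

def rf (a : I) (k : K) (v : K → F) : I → Matrix K K F :=
  Function.update (fun _ => 1) a (Matrix.of fun x y => if y = k then v x else 0)

lemma lfrf_apply (f : Matrix (I → K) (I → K) F) (a b : I) (k : K) (w v : K → F) (x y : I → K) :
    (kr (lf a k w) * f * kr (rf b k v)) (Function.update x a k) (Function.update y b k) =
      w ⬝ᵥ (Matrix.of fun p q => f (Function.update x a p) (Function.update y b q)).mulVec v := by
  have hl : ∀ (z : I → K) , kr (lf a k w) (Function.update x a k) z =
      if z = Function.update x a (z a) then w (z a) else 0 := by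
    intro z
    rw [lf, kr_update_apply, Matrix.of_apply, Function.update_self, if_pos rfl]
    split_ifs with hz
    · rw [Finset.prod_eq_one, mul_one]
      intro j hj
      rw [hz, Function.update_of_ne (Finset.ne_of_mem_erase hj),
        Function.update_of_ne (Finset.ne_of_mem_erase hj), Matrix.one_apply_eq]
    · have : ∃ j, j ≠ a ∧ x j ≠ z j := by
        by_contra hcon
        push Not at hcon
        apply hz
        funext j
        by_cases hj : j = a
        · subst hj; rw [Function.update_self]
        · rw [Function.update_of_ne hj, hcon j hj]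
      obtain ⟨j, hja, hj⟩ := this
      rw [Finset.prod_eq_zero (Finset.mem_erase.2 ⟨hja, Finset.mem_univ j⟩), mul_zero]
      rw [Function.update_of_ne hja, Matrix.one_apply_ne hj]
  have hr : ∀ (z : I → K) , kr (rf b k v) z (Function.update y b k) =
      if z = Function.update y b (z b) then v (z b) else 0 := by
    intro z
    rw [rf, kr_update_apply, Matrix.of_apply, Function.update_self, if_pos rfl]
    split_ifs with hz
    · rw [Finset.prod_eq_one, mul_one]
      intro j hj
      rw [hz, Function.update_of_ne (Finset.ne_of_mem_erase hj),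
        Function.update_of_ne (Finset.ne_of_mem_erase hj), Matrix.one_apply_eq]
    · have : ∃ j, j ≠ b ∧ z j ≠ y j := by
        by_contra hcon
        push Not at hcon
        apply hz
        funext j
        by_cases hj : j = b
        · subst hj; rw [Function.update_self]
        · rw [Function.update_of_ne hj, hcon j hj]
      obtain ⟨j, hja, hj⟩ := this
      rw [Finset.prod_eq_zero (Finset.mem_erase.2 ⟨hja, Finset.mem_univ j⟩), mul_zero]
      rw [Function.update_of_ne hja, Matrix.one_apply_ne hj]
  have hsum : ∀ (z₀ : I → K) (c : I) (g : (I → K) → F) (u : K → F),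
      ∑ z, (if z = Function.update z₀ c (z c) then u (z c) else 0) * g z =
        ∑ p, u p * g (Function.update z₀ c p) := by
    intro z₀ c g u
    have hinj : Function.Injective (fun p : K => Function.update z₀ c p) :=
      Function.update_injective z₀ c
    rw [← Finset.sum_subset (Finset.subset_univ (Finset.univ.image
      (fun p : K => Function.update z₀ c p)))]
    · rw [Finset.sum_image hinj.injOn]
      apply Finset.sum_congr rfl
      intro p _
      rw [Function.update_self, if_pos rfl]
    · intro z _ hz
      rw [if_neg, zero_mul]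
      intro hz'
      exact hz (Finset.mem_image.2 ⟨z c, Finset.mem_univ _, hz'.symm⟩)
  rw [Matrix.mul_apply]
  simp only [Matrix.mul_apply, hl, hr]
  rw [dotProduct]
  simp only [hsum]
  have : ∀ z, (∑ p, w p * f (Function.update x a p) z) *
      (if z = Function.update y b (z b) then v (z b) else 0) =
      (if z = Function.update y b (z b) then v (z b) else 0) *
        (∑ p, w p * f (Function.update x a p) z) := fun z => mul_comm _ _
  simp only [this]
  rw [hsum y b (fun z => ∑ p, w p * f (Function.update x a p) z) v]
  simp only [Matrix.mulVec, dotProduct, Matrix.of_apply, Finset.mul_sum]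
  rw [Finset.sum_comm]
  apply Finset.sum_congr rfl; intro p _
  apply Finset.sum_congr rfl; intro q _
  ring

lemma lf_of_ne {a i : I} (k : K) (w : K → F) (h : i ≠ a) : lf a k w i = 1 := by
  rw [lf, Function.update_of_ne h]

lemma rf_of_ne {a i : I} (k : K) (w : K → F) (h : i ≠ a) : rf a k w i = 1 := by
  rw [rf, Function.update_of_ne h]

lemma lf_mul_mul_rf (a b : I) (k : K) (w v : K → F) (N : Matrix K K F)
    (h : w ⬝ᵥ N.mulVec v = 0) : lf a k w a * N * rf b k v b = 0 := by
  ext x y
  rw [lf, rf, Function.update_self, Function.update_self, Matrix.mul_apply]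
  simp only [Matrix.mul_apply, Matrix.of_apply, Matrix.zero_apply]
  by_cases hx : x = k
  · by_cases hy : y = k
    · simp only [hx, hy, if_true]
      simp only [dotProduct, Matrix.mulVec, Finset.mul_sum] at h
      simp only [Finset.sum_mul]
      rw [Finset.sum_comm, ← h]
      apply Finset.sum_congr rfl; intro p _
      apply Finset.sum_congr rfl; intro q _
      ring
    · simp [hy]
  · simp [hx]

lemma multiple_of_ct (N : I → Matrix K K F) (σ : Equiv.Perm I) (f : Matrix (I → K) (I → K) F)
    (p0 q0 : I → K) (h0 : ∀ a, N a (p0 a) (q0 a) ≠ 0)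
    (h : ∀ a (k : K) (w v : K → F), w ⬝ᵥ (N a).mulVec v = 0 →
      kr (lf a k w) * f * kr (rf (σ a) k v) = 0) :
    ∃ c : F, f = c • gp N σ := by
  classical
  have hstep : ∀ (a : I) (x y : I → K), f x y * N a (p0 a) (q0 a) =
      N a (x a) (y (σ a)) *
        f (Function.update x a (p0 a)) (Function.update y (σ a) (q0 a)) := by
    intro a x y
    have h1 := bil (N a)
      (Matrix.of fun p q => f (Function.update x a p) (Function.update y (σ a) q)) (by
        intro w v hwv
        rw [← lfrf_apply f a (σ a) (p0 a) w v x y, h a (p0 a) w v hwv]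
        rfl) (p0 a) (q0 a) (x a) (y (σ a)) (h0 a)
    simpa only [Matrix.of_apply, Function.update_eq_self] using h1
  have hall : ∀ (T : Finset I) (x y : I → K), f x y * ∏ a ∈ T, N a (p0 a) (q0 a) =
      (∏ a ∈ T, N a (x a) (y (σ a))) * f (fun i => if i ∈ T then p0 i else x i)
        (fun j => if σ.symm j ∈ T then q0 (σ.symm j) else y j) := by
    intro T
    induction T using Finset.induction_on with
    | empty => intro x y; simp
    | insert a T ha ih =>
      intro x y
      have h1 := ih x y
      have h2 := hstep a (fun i => if i ∈ T then p0 i else x i)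
        (fun j => if σ.symm j ∈ T then q0 (σ.symm j) else y j)
      have e1 : Function.update (fun i => if i ∈ T then p0 i else x i) a (p0 a) =
          fun i => if i ∈ insert a T then p0 i else x i := by
        funext j
        by_cases hj : j = a
        · subst hj; simp
        · rw [Function.update_of_ne hj]; simp [hj]
      have e2 : Function.update (fun j => if σ.symm j ∈ T then q0 (σ.symm j) else y j) (σ a)
          (q0 a) = fun j => if σ.symm j ∈ insert a T then q0 (σ.symm j) else y j := by
        funext j
        by_cases hj : j = σ a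
        · subst hj; simp
        · have hj' : σ.symm j ≠ a := fun h' => hj (by rw [← h', Equiv.apply_symm_apply])
          rw [Function.update_of_ne hj]; simp [hj']
      rw [e1, e2] at h2
      simp only [Equiv.symm_apply_apply, ha, if_false] at h2
      rw [Finset.prod_insert ha, Finset.prod_insert ha]
      linear_combination (N a (p0 a) (q0 a)) * h1 + (∏ a ∈ T, N a (x a) (y (σ a))) * h2
  have hC : ∏ a, N a (p0 a) (q0 a) ≠ 0 := Finset.prod_ne_zero_iff.2 fun a _ => h0 a
  refine ⟨f p0 (fun j => q0 (σ.symm j)) / ∏ a, N a (p0 a) (q0 a), ?_⟩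
  ext x y
  rw [Matrix.smul_apply, smul_eq_mul, gp_apply, div_mul_eq_mul_div, eq_div_iff hC]
  have h1 := hall univ x y
  simp only [Finset.mem_univ, if_true] at h1
  rw [h1, mul_comm]

/-- the main bound, with permutations of the factors -/
theorem card_le_rank_perm (d : ℕ) (hd1 : 1 ≤ d) (hd : Fintype.card K ≤ d) (q : ℕ) :
    ∀ (S : Finset κ) (α : κ → F) (M : κ → I → Matrix K K F) (σ : κ → Equiv.Perm I) (r : ℕ),
      S.card ≤ q → (∀ l ∈ S, ∃ D : Finset I, D.card ≤ r ∧ ∀ i ∉ D, IsUnit (M l i)) →
      cg S α M σ ≠ 0 →
      Fintype.card (I → K) ≤ d ^ (r + 2 * (q - 1)) * (cg S α M σ).rank := by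
  classical
  induction q with
  | zero =>
    intro S α M σ r hS _ hne
    have : S = ∅ := Finset.card_eq_zero.1 (Nat.le_zero.1 hS)
    subst this
    exact absurd (by simp [cg]) hne
  | succ q ih =>
    intro S α M σ r hS hM hne
    rcases S.eq_empty_or_nonempty with rfl | ⟨l₀, hl₀⟩
    · exact absurd (by simp [cg]) hne
    have hcard : (S.erase l₀).card ≤ q := by
      rw [Finset.card_erase_of_mem hl₀]; omega
    rw [Nat.add_sub_cancel]
    by_cases hz : ∃ a, M l₀ a = 0
    · obtain ⟨a, ha⟩ := hz
      have h1 : gp (M l₀) (σ l₀) = 0 := by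
        ext x y
        rw [gp_apply, Matrix.zero_apply]
        exact Finset.prod_eq_zero (Finset.mem_univ a) (by rw [ha]; rfl)
      have h2 : cg S α M σ = cg (S.erase l₀) α M σ := by
        rw [cg, cg, ← Finset.add_sum_erase S _ hl₀, h1, smul_zero, zero_add]
      rw [h2] at hne ⊢
      refine (ih (S.erase l₀) α M σ r hcard (fun l hl => hM l (Finset.mem_of_mem_erase hl))
        hne).trans (Nat.mul_le_mul_right _ (Nat.pow_le_pow_right hd1 ?_))
      omega
    · push Not at hz
      have hent : ∀ a, ∃ p q, M l₀ a p q ≠ 0 := by
        intro a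
        by_contra hcon
        push Not at hcon
        exact hz a (by ext p q; exact hcon p q)
      choose p0 q0 h0 using hent
      by_cases hct : ∀ a (k : K) (w v : K → F), w ⬝ᵥ (M l₀ a).mulVec v = 0 →
          kr (lf a k w) * cg S α M σ * kr (rf (σ l₀ a) k v) = 0
      · obtain ⟨c, hc⟩ := multiple_of_ct (M l₀) (σ l₀) (cg S α M σ) p0 q0 h0 hct
        have hc0 : c ≠ 0 := by
          rintro rfl
          exact hne (by rw [hc, zero_smul])
        rw [hc, Matrix.rank_smul_of_mem_nonZeroDivisors _ (mem_nonZeroDivisors_of_ne_zero hc0),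
          rank_gp]
        have hk : kr (M l₀) ≠ 0 := by
          intro hk
          have := congrFun (congrFun hk p0) q0
          rw [kr_apply, Matrix.zero_apply] at this
          exact (Finset.prod_ne_zero_iff.2 fun a _ => h0 a) this
        refine (card_le_rank_single d hd1 hd r (M l₀) (hM l₀ hl₀) hk).trans
          (Nat.mul_le_mul_right _ (Nat.pow_le_pow_right hd1 ?_))
        omega
      · push Not at hct
        obtain ⟨a, k, w, v, hwv, hne'⟩ := hct
        have hct2 : kr (lf a k w) * cg S α M σ * kr (rf (σ l₀ a) k v) =
            cg (S.erase l₀) α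
              (fun l i => lf a k w i * M l i * rf (σ l₀ a) k v (σ l i)) σ := by
          rw [cg, Finset.mul_sum, Finset.sum_mul, cg, ← Finset.add_sum_erase S _ hl₀]
          have e1 : ∀ l, kr (lf a k w) * α l • gp (M l) (σ l) * kr (rf (σ l₀ a) k v) =
              α l • gp (fun i => lf a k w i * M l i * rf (σ l₀ a) k v (σ l i)) (σ l) := by
            intro l
            rw [Matrix.mul_smul, Matrix.smul_mul, kr_mul_gp, gp_mul_kr]
          simp only [e1]
          have e2 : gp (fun i => lf a k w i * M l₀ i * rf (σ l₀ a) k v (σ l₀ i)) (σ l₀) = 0 := by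
            ext x y
            rw [gp_apply, Matrix.zero_apply]
            apply Finset.prod_eq_zero (Finset.mem_univ a)
            rw [lf_mul_mul_rf a (σ l₀ a) k w v (M l₀ a) hwv]
            rfl
          rw [e2, smul_zero, zero_add]
        have hq : 1 ≤ q := by
          by_contra hq
          have : S.erase l₀ = ∅ := Finset.card_eq_zero.1 (by omega)
          rw [hct2, this] at hne'
          exact hne' (by simp [cg])
        have h1 := ih (S.erase l₀) α
          (fun l i => lf a k w i * M l i * rf (σ l₀ a) k v (σ l i)) σ (r + 2) hcard (by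
            intro l hl
            obtain ⟨D, hD, hDM⟩ := hM l (Finset.mem_of_mem_erase hl)
            refine ⟨insert a (insert ((σ l).symm (σ l₀ a)) D), ?_, ?_⟩
            · refine (Finset.card_insert_le _ _).trans ?_
              have := Finset.card_insert_le ((σ l).symm (σ l₀ a)) D
              omega
            · intro i hi
              simp only [Finset.mem_insert, not_or] at hi
              have hi2 : σ l i ≠ σ l₀ a := fun h' => hi.2.1 (by
                rw [← h', Equiv.symm_apply_apply])
              rw [lf_of_ne k w hi.1, rf_of_ne k v hi2, one_mul, mul_one]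
              exact hDM i hi.2.2) (by rw [← hct2]; exact hne')
        rw [← hct2] at h1
        refine h1.trans ?_
        have h2 : (kr (lf a k w) * cg S α M σ * kr (rf (σ l₀ a) k v)).rank ≤
            (cg S α M σ).rank :=
          (Matrix.rank_mul_le_left _ _).trans (Matrix.rank_mul_le_right _ _)
        have h3 : r + 2 + 2 * (q - 1) = r + 2 * q := by omega
        rw [h3]
        exact Nat.mul_le_mul_left _ h2

end Perm

end Helper75rk
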